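import Pool.Agent.ATL.Defs
import Pool.Agent.AT.Defs

/-!
# ATL-Fam: families of characters of prime moduli and primitive characters of squarefree moduli

`fam_prim`: let `f = fcd χ = ∏ i ∈ fsupp χ, p i` and `ψ = ∏ i ∈ fsupp χ, changeLevel (p i ∣ f) (χ i)`. Then `ψ m = fch χ m` (if `(m, f) > 1`
some `p i ∣ m`, both sides are `0`; otherwise `changeLevel` does not change the value at units). Primitive: let `d = conductor ψ ∣ f`; if
`d < f` some `p i` (`i ∈ fsupp χ`) does not divide `d` (`f` is squarefree), so `d ∣ f / p i`. For every `r` prime to `p i` there is `m ≡ r [MOD p i]`, `m ≡ 1 [MOD f / p i]`; as `ψ`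
factors through `d`: `ψ m = 1`, and `ψ m = χ i r`. So `χ i = 1`: contradiction with `i ∈ fsupp χ`.
`fam_inj`: `fcd χ = fcd χ'` implies `fsupp χ = fsupp χ'` (the `p i` are distinct primes: `i ∈ fsupp χ ↔ p i ∣ fcd χ`); then for `i ∈ fsupp χ` and `r`
prime to `p i` evaluate at `m ≡ r [MOD p i]`, `m ≡ 1` modulo the others (Chinese remainder): `χ i r = χ' i r`.
-/

set_option autoImplicit false

namespace Pool.Agent.ATL

open Finset Pool.Agent.AT

variable {ι : Type} [Fintype ι] [DecidableEq ι]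

private theorem prod_erase_coprime {p : ι → ℕ} (hp : ∀ i, (p i).Prime)
    (hinj : Function.Injective p) (s : Finset ι) (i : ι) :
    (p i).Coprime (∏ j ∈ s.erase i, p j) := by
  refine Nat.Coprime.prod_right fun j hj => ?_
  rw [Nat.coprime_primes (hp i) (hp j)]
  intro h
  exact (Finset.ne_of_mem_erase hj) (hinj h).symm

private theorem dvd_prod_iff {p : ι → ℕ} (hp : ∀ i, (p i).Prime)
    (hinj : Function.Injective p) (s : Finset ι) (i : ι) :
    i ∈ s ↔ p i ∣ ∏ j ∈ s, p j := by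
  constructor
  · exact fun h => Finset.dvd_prod_of_mem p h
  · intro h
    obtain ⟨j, hj, hij⟩ := (hp i).prime.exists_mem_finset_dvd h
    rw [Nat.prime_dvd_prime_iff_eq (hp i) (hp j)] at hij
    rw [hinj hij]
    exact hj

private theorem fch_eval {p : ι → ℕ} {χ : Fam p} {i : ι} (hi : i ∈ fsupp χ) {m r : ℕ}
    (h1 : m ≡ r [MOD p i]) (h2 : m ≡ 1 [MOD ∏ j ∈ (fsupp χ).erase i, p j]) :
    fch χ m = χ i (r : ZMod (p i)) := by
  unfold fch
  rw [← Finset.mul_prod_erase _ _ hi, Finset.prod_eq_one, mul_one,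
    (ZMod.natCast_eq_natCast_iff m r (p i)).mpr h1]
  intro j hj
  have h3 : m ≡ 1 [MOD p j] := h2.of_dvd (Finset.dvd_prod_of_mem p hj)
  have h4 : (m : ZMod (p j)) = 1 := by
    have := (ZMod.natCast_eq_natCast_iff m 1 (p j)).mpr h3
    simpa using this
  rw [h4, map_one]

private theorem mem_fsupp {p : ι → ℕ} {χ : Fam p} {i : ι} : i ∈ fsupp χ ↔ χ i ≠ 1 := by
  classical
  simp [fsupp]

private theorem dvd_fcd {p : ι → ℕ} {χ : Fam p} {i : ι} (hi : i ∈ fsupp χ) : p i ∣ fcd χ :=
  Finset.dvd_prod_of_mem p hi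

private theorem fcd_ne_zero {p : ι → ℕ} (hp : ∀ i, (p i).Prime) (χ : Fam p) : fcd χ ≠ 0 := by
  unfold fcd
  exact Finset.prod_ne_zero_iff.mpr fun i _ => (hp i).ne_zero

/-- the character with the values `fch χ m` -/
private noncomputable def fpsi {p : ι → ℕ} (hp : ∀ i, (p i).Prime) (χ : Fam p) :
    DirichletCharacter ℂ (fcd χ) where
  toFun x := ∏ i ∈ fsupp χ, χ i (ZMod.cast x : ZMod (p i))
  map_one' := by
    refine Finset.prod_eq_one fun i hi => ?_
    rw [ZMod.cast_one (dvd_fcd hi), map_one]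
  map_mul' x y := by
    rw [← Finset.prod_mul_distrib]
    refine Finset.prod_congr rfl fun i hi => ?_
    rw [ZMod.cast_mul (dvd_fcd hi), map_mul]
  map_nonunit' x hx := by
    have : NeZero (fcd χ) := ⟨fcd_ne_zero hp χ⟩
    rw [← ZMod.natCast_zmod_val x, ZMod.isUnit_iff_coprime, Nat.Prime.not_coprime_iff_dvd] at hx
    obtain ⟨q, hq, hqx, hqf⟩ := hx
    unfold fcd at hqf
    obtain ⟨i, hi, hqi⟩ := hq.prime.exists_mem_finset_dvd hqf
    rw [Nat.prime_dvd_prime_iff_eq hq (hp i)] at hqi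
    subst hqi
    refine Finset.prod_eq_zero hi ?_
    have h1 : (ZMod.cast x : ZMod (p i)) = 0 := by
      rw [← ZMod.natCast_zmod_val x, ZMod.cast_natCast (dvd_fcd hi),
        ZMod.natCast_eq_zero_iff]
      exact hqx
    have : Nontrivial (ZMod (p i)) := by
      have : Fact (1 < p i) := ⟨(hp i).one_lt⟩
      infer_instance
    rw [h1]
    exact MulChar.map_nonunit _ not_isUnit_zero

private theorem fpsi_apply {p : ι → ℕ} (hp : ∀ i, (p i).Prime) (χ : Fam p) (m : ℕ) :
    fpsi hp χ m = fch χ m := by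
  change ∏ i ∈ fsupp χ, χ i (ZMod.cast (m : ZMod (fcd χ)) : ZMod (p i)) = _
  unfold fch
  refine Finset.prod_congr rfl fun i hi => ?_
  rw [ZMod.cast_natCast (dvd_fcd hi)]

theorem fam_prim {p : ι → ℕ} (hp : ∀ i, (p i).Prime) (hinj : Function.Injective p) (χ : Fam p) :
    ∃ ψ : DirichletCharacter ℂ (fcd χ), ψ.IsPrimitive ∧ ∀ m : ℕ, ψ m = fch χ m := by
  refine ⟨fpsi hp χ, ?_, fpsi_apply hp χ⟩
  have hne : NeZero (fcd χ) := ⟨fcd_ne_zero hp χ⟩
  by_contra hprim
  have hd : (fpsi hp χ).conductor ∣ fcd χ := DirichletCharacter.conductor_dvd_level _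
  obtain ⟨e, he⟩ := hd
  have he1 : e ≠ 1 := by
    rintro rfl
    rw [mul_one] at he
    exact hprim he.symm
  obtain ⟨q, hq, hqe⟩ := Nat.exists_prime_and_dvd he1
  have hqf : q ∣ ∏ j ∈ fsupp χ, p j := by
    change q ∣ fcd χ
    rw [he]
    exact hqe.mul_left _
  obtain ⟨i, hi, hqi⟩ := hq.prime.exists_mem_finset_dvd hqf
  rw [Nat.prime_dvd_prime_iff_eq hq (hp i)] at hqi
  subst hqi
  have hfg : fcd χ = p i * ∏ j ∈ (fsupp χ).erase i, p j := (Finset.mul_prod_erase _ _ hi).symm
  have hcop := prod_erase_coprime hp hinj (fsupp χ) i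
  -- the conductor divides the product over the other primes
  obtain ⟨e', he'⟩ := hqe
  have hdg : (fpsi hp χ).conductor ∣ ∏ j ∈ (fsupp χ).erase i, p j := by
    refine ⟨e', Nat.eq_of_mul_eq_mul_left (hp i).pos ?_⟩
    refine hfg.symm.trans (he.trans ?_)
    rw [he']
    ring
  have hker := (DirichletCharacter.factorsThrough_iff_ker_unitsMap (χ := fpsi hp χ)
    (DirichletCharacter.conductor_dvd_level _)).mp
    (DirichletCharacter.factorsThrough_conductor _)
  have hone : χ i = 1 := by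
    apply MulChar.ext
    intro u
    obtain ⟨m, hm1, hm2⟩ := Nat.chineseRemainder hcop (u : ZMod (p i)).val 1
    have hnz : NeZero (p i) := ⟨(hp i).ne_zero⟩
    have hmf : m.Coprime (fcd χ) := by
      rw [hfg]
      refine Nat.Coprime.mul_right ?_ ?_
      · have h3 := ZMod.val_coe_unit_coprime u
        rw [Nat.coprime_iff_gcd_eq_one] at h3 ⊢
        rw [← h3]
        exact hm1.gcd_eq
      · rw [Nat.coprime_iff_gcd_eq_one]
        rw [hm2.gcd_eq, Nat.gcd_one_left]
    have hm : fpsi hp χ m = 1 := by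
      have h4 : ZMod.unitOfCoprime m hmf ∈
          (ZMod.unitsMap (DirichletCharacter.conductor_dvd_level (fpsi hp χ))).ker := by
        rw [MonoidHom.mem_ker]
        apply Units.ext
        rw [ZMod.unitsMap_val, ZMod.coe_unitOfCoprime, Units.val_one,
          ZMod.cast_natCast (DirichletCharacter.conductor_dvd_level _)]
        have h5 : m ≡ 1 [MOD (fpsi hp χ).conductor] := hm2.of_dvd hdg
        have := (ZMod.natCast_eq_natCast_iff m 1 _).mpr h5
        simpa using this
      have h6 := hker h4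
      rw [MonoidHom.mem_ker] at h6
      have h7 := congrArg (Units.val) h6
      rw [MulChar.coe_toUnitHom, ZMod.coe_unitOfCoprime, Units.val_one] at h7
      exact h7
    rw [fpsi_apply, fch_eval hi hm1 hm2, ZMod.natCast_zmod_val] at hm
    rw [hm, MulChar.one_apply_coe]
  exact mem_fsupp.mp hi hone

theorem fam_inj {p : ι → ℕ} (hp : ∀ i, (p i).Prime) (hinj : Function.Injective p) (χ χ' : Fam p)
    (h1 : fcd χ = fcd χ') (h2 : ∀ m : ℕ, fch χ m = fch χ' m) : χ = χ' := by
  have hs : fsupp χ = fsupp χ' := by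
    ext i
    rw [dvd_prod_iff hp hinj, dvd_prod_iff hp hinj]
    change p i ∣ fcd χ ↔ p i ∣ fcd χ'
    rw [h1]
  funext i
  by_cases hi : i ∈ fsupp χ
  · apply MulChar.ext
    intro u
    have hnz : NeZero (p i) := ⟨(hp i).ne_zero⟩
    obtain ⟨m, hm1, hm2⟩ := Nat.chineseRemainder (prod_erase_coprime hp hinj (fsupp χ) i)
      (u : ZMod (p i)).val 1
    have h3 := h2 m
    rw [fch_eval hi hm1 hm2, fch_eval (hs ▸ hi) hm1 (hs ▸ hm2), ZMod.natCast_zmod_val] at h3
    exact h3
  · have hi' : i ∉ fsupp χ' := hs ▸ hi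
    rw [mem_fsupp, not_not] at hi hi'
    rw [hi, hi']

end Pool.Agent.ATL
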