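import Pool.Agent.ATL.Dyad

/-!
# ATL-T2: the whole bilinear form

`∑_{k ∈ Ioc U (4P)}`: for `k V ≥ 4 P` the inner sum is empty (`m > V`, `k m ≤ y2 ≤ 4P`). So the sum equals the sum over
`k ∈ Ioc U (U * 2^n)` (both are equal to the sum over the `k > U` with `k V < 4 P`, because `4 P ≤ U * 2^n * V` and `k V < 4P` implies
`k ≤ 4P`, as `V ≥ 1`). Dyadic blocks `K = U 2^i`, `i < n`; blocks with `K V ≥ 4P` vanish, the others are at most `D` by `dyad` and `hD`.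
(Compare `LS_dyadic` in `Helper98/Bern/LS.lean`.)
-/

set_option autoImplicit false

namespace Pool.Agent.ATL

open Finset Pool.Agent.Helper98.Bern

private noncomputable def gg {f : ℕ} (α β : ℕ → ℂ) (V P y1 y2 M a : ℕ)
    (χ : DirichletCharacter ℂ f) (k : ℕ) : ℂ :=
  ∑ m ∈ (Ioc V (4 * P)).filter (fun m => y1 < k * m ∧ k * m ≤ y2 ∧ k * m ≡ a [MOD M]),
    α k * β m * χ ((k * m : ℕ))

private theorem gg_zero {f : ℕ} (α β : ℕ → ℂ) {V P y1 y2 M a : ℕ}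
    (χ : DirichletCharacter ℂ f) (hy2 : y2 ≤ 4 * P) {k : ℕ} (hk : 1 ≤ k) (hkV : 4 * P ≤ k * V) :
    gg α β V P y1 y2 M a χ k = 0 := by
  unfold gg
  refine Finset.sum_eq_zero fun m hm => ?_
  rw [mem_filter, mem_Ioc] at hm
  exfalso
  obtain ⟨⟨h1, _⟩, _, h3, _⟩ := hm
  have h4 : k * (V + 1) ≤ k * m := Nat.mul_le_mul_left k h1
  rw [Nat.mul_add, Nat.mul_one] at h4
  omega

private theorem gg_range {f : ℕ} (α β : ℕ → ℂ) {V P y1 y2 M a U n : ℕ}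
    (χ : DirichletCharacter ℂ f) (hy2 : y2 ≤ 4 * P) (hU : 1 ≤ U) (hV : 1 ≤ V)
    (hn : 4 * P ≤ U * 2 ^ n * V) :
    ∑ k ∈ Ioc U (4 * P), gg α β V P y1 y2 M a χ k =
      ∑ k ∈ Ioc U (U * 2 ^ n), gg α β V P y1 y2 M a χ k := by
  have h1 : ∑ k ∈ Ioc U (4 * P) ∩ Ioc U (U * 2 ^ n), gg α β V P y1 y2 M a χ k =
      ∑ k ∈ Ioc U (4 * P), gg α β V P y1 y2 M a χ k := by
    refine Finset.sum_subset Finset.inter_subset_left fun k hk hk' => ?_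
    rw [mem_Ioc] at hk
    rw [mem_inter, mem_Ioc, mem_Ioc] at hk'
    have h2 : U * 2 ^ n < k := by
      by_contra h
      exact hk' ⟨hk, hk.1, not_lt.1 h⟩
    exact gg_zero α β χ hy2 (by omega) (hn.trans (Nat.mul_le_mul_right V h2.le))
  have h3 : ∑ k ∈ Ioc U (4 * P) ∩ Ioc U (U * 2 ^ n), gg α β V P y1 y2 M a χ k =
      ∑ k ∈ Ioc U (U * 2 ^ n), gg α β V P y1 y2 M a χ k := by
    refine Finset.sum_subset Finset.inter_subset_right fun k hk hk' => ?_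
    rw [mem_Ioc] at hk
    rw [mem_inter, mem_Ioc, mem_Ioc] at hk'
    have h2 : 4 * P < k := by
      by_contra h
      exact hk' ⟨⟨hk.1, not_lt.1 h⟩, hk⟩
    refine gg_zero α β χ hy2 (by omega) ?_
    exact h2.le.trans (Nat.le_mul_of_pos_right k hV)
  rw [← h1, h3]

private theorem gg_blocks (M F : ℕ) (α β : ℕ → ℂ) (V P y1 y2 a U : ℕ) {D : ℝ} (n : ℕ)
    (h : ∀ i < n, ps M F (fun _ χ => ‖∑ k ∈ Ioc (U * 2 ^ i) (2 * (U * 2 ^ i)),
      gg α β V P y1 y2 M a χ k‖) ≤ D) :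
    ps M F (fun _ χ => ‖∑ k ∈ Ioc U (U * 2 ^ n), gg α β V P y1 y2 M a χ k‖) ≤ n * D := by
  induction n with
  | zero => simp [ps]
  | succ n ih =>
    have h1 : U ≤ U * 2 ^ n := Nat.le_mul_of_pos_right U (by positivity)
    have h2 : U * 2 ^ n ≤ U * 2 ^ (n + 1) :=
      Nat.mul_le_mul_left U (Nat.pow_le_pow_right (by norm_num) (by omega))
    have h3 := ih fun i hi => h i (by omega)
    have h4 := h n (by omega)
    have h5 : U * 2 ^ (n + 1) = 2 * (U * 2 ^ n) := by ring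
    have h6 : ps M F (fun _ χ => ‖∑ k ∈ Ioc U (U * 2 ^ (n + 1)),
        gg α β V P y1 y2 M a χ k‖) ≤
        ps M F (fun _ χ => ‖∑ k ∈ Ioc U (U * 2 ^ n), gg α β V P y1 y2 M a χ k‖ +
          ‖∑ k ∈ Ioc (U * 2 ^ n) (2 * (U * 2 ^ n)), gg α β V P y1 y2 M a χ k‖) := by
      refine ps_mono fun f _ χ _ => ?_
      rw [← sum_Ioc_consecutive _ h1 h2, h5]
      exact norm_add_le _ _
    rw [ps_add] at h6
    push_cast
    linarith

theorem type2 {M F a P U V y1 y2 R n : ℕ} (hM : 1 ≤ M) (hF : 1 ≤ F) (ha : a.Coprime M)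
    (hR : 1 ≤ R) (hRU : R ≤ U) (hV : 1 ≤ V) (hy1 : y1 ≤ y2) (hy2 : y2 ≤ 4 * P)
    (hn : 4 * P ≤ U * 2 ^ n * V) (α β : ℕ → ℂ) {B D : ℝ}
    (hB : 0 ≤ B) (hα : ∀ k, ‖α k‖ ≤ 1) (hβ : ∀ m, m ≤ 4 * P → ‖β m‖ ≤ B) (hD0 : 0 ≤ D)
    (hD : ∀ K : ℕ, U ≤ K → K * V ≤ 4 * P →
      100 * M * B * R * (2 * K / ((R : ℝ) * M) + 1 + (F : ℝ) ^ 2) *
        (4 * P / ((K : ℝ) * M) + 1 + (F : ℝ) ^ 2) +
      (F : ℝ) ^ 2 * B * (16 * P / ((R : ℝ) * M) + 2 * K) ≤ D) :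
    ps M F (fun _ χ => ‖∑ k ∈ Ioc U (4 * P), ∑ m ∈ (Ioc V (4 * P)).filter
      (fun m => y1 < k * m ∧ k * m ≤ y2 ∧ k * m ≡ a [MOD M]), α k * β m * χ ((k * m : ℕ))‖) ≤
      n * D := by
  have hU : 1 ≤ U := hR.trans hRU
  have h1 : ps M F (fun _ χ => ‖∑ k ∈ Ioc U (4 * P), ∑ m ∈ (Ioc V (4 * P)).filter
      (fun m => y1 < k * m ∧ k * m ≤ y2 ∧ k * m ≡ a [MOD M]), α k * β m * χ ((k * m : ℕ))‖) ≤
      ps M F (fun _ χ => ‖∑ k ∈ Ioc U (U * 2 ^ n), gg α β V P y1 y2 M a χ k‖) := by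
    refine ps_mono fun f _ χ _ => ?_
    rw [← gg_range α β χ hy2 hU hV hn]
    rfl
  refine h1.trans (gg_blocks M F α β V P y1 y2 a U n fun i _ => ?_)
  set K := U * 2 ^ i with hK
  have hUK : U ≤ K := Nat.le_mul_of_pos_right U (by positivity)
  by_cases hKV : K * V ≤ 4 * P
  · exact (dyad hM hF ha hR (hRU.trans hUK) hy1 hy2 α β hB hα hβ).trans (hD K hUK hKV)
  · have h2 : ps M F (fun _ χ => ‖∑ k ∈ Ioc K (2 * K), gg α β V P y1 y2 M a χ k‖) = 0 := by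
      unfold ps
      refine Finset.sum_eq_zero fun f _ => Finset.sum_eq_zero fun χ _ => ?_
      rw [norm_eq_zero]
      refine Finset.sum_eq_zero fun k hk => ?_
      rw [mem_Ioc] at hk
      refine gg_zero α β χ hy2 (by omega) ?_
      exact (not_le.1 hKV).le.trans (Nat.mul_le_mul_right V hk.1.le)
    rw [h2]
    exact hD0

end Pool.Agent.ATL
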