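import Pool.Agent.ATL.T1
import Pool.Agent.ATL.T2
import Pool.Agent.Helper98.Bern.VI

/-!
# ATL-Main

Vaughan (`Pool.Agent.Helper98.Bern.vaughan`) with `U = V = ⌊t^25⌋`, `R = ⌈t^5⌉`, `t = P^(1/100)`.
-/

set_option autoImplicit false

namespace Pool.Agent.ATL

open Finset Pool.Agent.Helper98.Bern

private theorem main_block {t P K U M R F L : ℝ} (ht : 2 ≤ t) (hP : P = t ^ 100) (hU1 : t ^ 25 / 2 ≤ U)
    (hM1 : 1 ≤ M) (hM : M ≤ t ^ 5) (hR1 : t ^ 5 ≤ R) (hR : R ≤ 2 * t ^ 5) (hF0 : 0 ≤ F)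
    (hF : F ≤ t ^ 2) (hL : 0 ≤ L) (hK : U ≤ K) (hK2 : K * U ≤ 4 * P) :
    100 * M * L * R * (2 * K / (R * M) + 1 + F ^ 2) * (4 * P / (K * M) + 1 + F ^ 2) +
      F ^ 2 * L * (16 * P / (R * M) + 2 * K) ≤ 3232 * L * (P / M) := by
  have ht0 : 0 < t := by linarith
  have ht1 : 1 ≤ t := by linarith
  have h5 : 0 < t ^ 5 := by positivity
  have h25 : 0 < t ^ 25 := by positivity
  have hU0 : 0 < U := lt_of_lt_of_le (by positivity) hU1
  have hK0 : 0 < K := lt_of_lt_of_le hU0 hK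
  have hR0 : 0 < R := lt_of_lt_of_le h5 hR1
  have hM0 : 0 < M := by linarith
  have hP0 : 0 < P := by rw [hP]; positivity
  have hF2 : F ^ 2 ≤ t ^ 4 := by
    calc F ^ 2 ≤ (t ^ 2) ^ 2 := pow_le_pow_left₀ hF0 hF 2
      _ = t ^ 4 := by ring
  have ht4 : 1 ≤ t ^ 4 := one_le_pow₀ ht1
  have hbig : 1 + t ^ 4 ≤ t ^ 15 / 2 := by
    have h1 : 2 * t ^ 4 ≤ t ^ 15 / 2 := by
      have h2 : (4 : ℝ) ≤ t ^ 2 := by nlinarith
      have h3 : t ^ 2 ≤ t ^ 11 := pow_le_pow_right₀ ht1 (by norm_num)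
      have h4 : t ^ 15 = t ^ 4 * t ^ 11 := by ring
      have h5 : 0 < t ^ 4 := by positivity
      rw [h4]
      nlinarith
    linarith
  have hA : 1 + F ^ 2 ≤ 2 * K / (R * M) := by
    rw [le_div_iff₀ (by positivity)]
    have h1 : R * M ≤ 2 * t ^ 5 * t ^ 5 := mul_le_mul hR hM hM0.le (by positivity)
    have h2 : (1 + F ^ 2) * (R * M) ≤ (t ^ 15 / 2) * (2 * t ^ 5 * t ^ 5) :=
      mul_le_mul (by linarith) h1 (by positivity) (by positivity)
    have h3 : (t ^ 15 / 2) * (2 * t ^ 5 * t ^ 5) = t ^ 25 := by ring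
    linarith
  have hB : 1 + F ^ 2 ≤ 4 * P / (K * M) := by
    rw [le_div_iff₀ (by positivity)]
    have h1 : (1 + F ^ 2) * M ≤ (t ^ 15 / 2) * t ^ 5 :=
      mul_le_mul (by linarith) hM hM0.le (by positivity)
    have h2 : (t ^ 15 / 2) * t ^ 5 ≤ U := by
      have : (t ^ 15 / 2) * t ^ 5 = t ^ 20 / 2 := by ring
      rw [this]
      have : t ^ 20 ≤ t ^ 25 := pow_le_pow_right₀ ht1 (by norm_num)
      linarith
    calc (1 + F ^ 2) * (K * M) = K * ((1 + F ^ 2) * M) := by ring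
      _ ≤ K * U := mul_le_mul_of_nonneg_left (h1.trans h2) hK0.le
      _ ≤ 4 * P := hK2
  have e1 : 100 * M * L * R * (2 * K / (R * M) + 1 + F ^ 2) * (4 * P / (K * M) + 1 + F ^ 2) ≤
      3200 * L * (P / M) := by
    have h1 : 2 * K / (R * M) + 1 + F ^ 2 ≤ 4 * K / (R * M) := by
      have : 4 * K / (R * M) = 2 * K / (R * M) + 2 * K / (R * M) := by ring
      linarith
    have h2 : 4 * P / (K * M) + 1 + F ^ 2 ≤ 8 * P / (K * M) := by
      have : 8 * P / (K * M) = 4 * P / (K * M) + 4 * P / (K * M) := by ring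
      linarith
    calc 100 * M * L * R * (2 * K / (R * M) + 1 + F ^ 2) * (4 * P / (K * M) + 1 + F ^ 2)
        ≤ 100 * M * L * R * (4 * K / (R * M)) * (8 * P / (K * M)) := by gcongr
      _ = 3200 * L * (P / M) := by field_simp; ring
  have e2 : F ^ 2 * L * (16 * P / (R * M) + 2 * K) ≤ 32 * L * (P / M) := by
    have h1 : F ^ 2 * (16 * P / (R * M)) ≤ 16 * (P / M) := by
      have : F ^ 2 * (16 * P / (R * M)) = (F ^ 2 / R) * (16 * (P / M)) := by field_simp
      rw [this]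
      have h2 : F ^ 2 / R ≤ 1 := by
        rw [div_le_one hR0]
        have : t ^ 4 ≤ t ^ 5 := pow_le_pow_right₀ ht1 (by norm_num)
        linarith
      have h3 : 0 ≤ 16 * (P / M) := by positivity
      nlinarith
    have h2 : F ^ 2 * (2 * K) ≤ 16 * (P / M) := by
      have h3 : K ≤ 4 * P / U := by rw [le_div_iff₀ hU0]; exact hK2
      have h4 : 4 * P / U ≤ 8 * P / t ^ 25 := by
        rw [div_le_div_iff₀ hU0 h25]
        nlinarith
      have h5 : F ^ 2 * (2 * K) ≤ t ^ 4 * (2 * (8 * P / t ^ 25)) :=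
        mul_le_mul hF2 (by linarith) (by positivity) (by positivity)
      have h6 : t ^ 4 * (2 * (8 * P / t ^ 25)) = 16 * (P / t ^ 21) := by
        field_simp
        norm_num
      have h7 : P / t ^ 21 ≤ P / M := by
        refine div_le_div_of_nonneg_left hP0.le hM0 (hM.trans ?_)
        exact pow_le_pow_right₀ ht1 (by norm_num)
      linarith
    calc F ^ 2 * L * (16 * P / (R * M) + 2 * K)
        = L * (F ^ 2 * (16 * P / (R * M)) + F ^ 2 * (2 * K)) := by ring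
      _ ≤ L * (16 * (P / M) + 16 * (P / M)) := mul_le_mul_of_nonneg_left (add_le_add h1 h2) hL
      _ = 32 * L * (P / M) := by ring
  linarith

private theorem mods_empty {M F : ℕ} (h : F < 2) : mods M F = ∅ := by
  ext f
  rw [mem_mods]
  simp only [notMem_empty, iff_false]
  omega

private theorem decomp {f M a P U y1 y2 : ℕ} (χ : DirichletCharacter ℂ f) (c b : ℕ → ℝ)
    (hv : ∀ Fn : ℕ → ℂ,
      ∑ q ∈ Ioc P (4 * P), ((ArithmeticFunction.vonMangoldt q : ℝ) : ℂ) * Fn q =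
        ∑ d ∈ Icc 1 U, ((ArithmeticFunction.moebius d : ℤ) : ℂ) *
          ∑ m ∈ (Icc 1 (4 * P)).filter (fun m => P < d * m ∧ d * m ≤ 4 * P),
            ((Real.log m : ℝ) : ℂ) * Fn (d * m)
        - ∑ d ∈ Icc 1 (U * U), ((c d : ℝ) : ℂ) *
          ∑ m ∈ (Icc 1 (4 * P)).filter (fun m => P < d * m ∧ d * m ≤ 4 * P), Fn (d * m)
        + ∑ k ∈ Ioc U (4 * P),
          ∑ m ∈ (Ioc U (4 * P)).filter (fun m => P < k * m ∧ k * m ≤ 4 * P),
            ((ArithmeticFunction.moebius k : ℤ) : ℂ) * ((b m : ℝ) : ℂ) * Fn (k * m))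
    (hy1 : P ≤ y1) (hy2 : y2 ≤ 4 * P) :
    ∑ q ∈ (Ioc y1 y2).filter (fun q => q ≡ a [MOD M]),
        ((ArithmeticFunction.vonMangoldt q : ℝ) : ℂ) * χ q =
      ∑ d ∈ Icc 1 U, ((ArithmeticFunction.moebius d : ℤ) : ℂ) *
          ∑ m ∈ (Icc 1 (4 * P)).filter (fun m => P < d * m ∧ d * m ≤ 4 * P),
            ((Real.log m : ℝ) : ℂ) * FF χ M a y1 y2 (d * m)
        - ∑ d ∈ Icc 1 (U * U), ((c d : ℝ) : ℂ) *
          ∑ m ∈ (Icc 1 (4 * P)).filter (fun m => P < d * m ∧ d * m ≤ 4 * P),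
            FF χ M a y1 y2 (d * m)
        + ∑ k ∈ Ioc U (4 * P),
          ∑ m ∈ (Ioc U (4 * P)).filter (fun m => y1 < k * m ∧ k * m ≤ y2 ∧ k * m ≡ a [MOD M]),
            ((ArithmeticFunction.moebius k : ℤ) : ℂ) * ((b m : ℝ) : ℂ) * χ ((k * m : ℕ)) := by
  have h1 : ∑ q ∈ (Ioc y1 y2).filter (fun q => q ≡ a [MOD M]),
      ((ArithmeticFunction.vonMangoldt q : ℝ) : ℂ) * χ q =
      ∑ q ∈ Ioc P (4 * P), ((ArithmeticFunction.vonMangoldt q : ℝ) : ℂ) * FF χ M a y1 y2 q := by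
    rw [Finset.sum_filter]
    have h2 : Ioc y1 y2 ⊆ Ioc P (4 * P) := Ioc_subset_Ioc hy1 hy2
    rw [← Finset.sum_subset h2]
    · refine Finset.sum_congr rfl fun q hq => ?_
      rw [mem_Ioc] at hq
      unfold FF
      by_cases hqa : q ≡ a [MOD M]
      · rw [if_pos hqa, if_pos ⟨hq.1, hq.2, hqa⟩]
      · rw [if_neg hqa, if_neg (fun h => hqa h.2.2), mul_zero]
    · intro q _ hq
      rw [mem_Ioc] at hq
      unfold FF
      rw [if_neg (fun h => hq ⟨h.1, h.2.1⟩), mul_zero]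
  rw [h1, hv]
  congr 1
  refine Finset.sum_congr rfl fun k _ => ?_
  have h3 : (Ioc U (4 * P)).filter (fun m => y1 < k * m ∧ k * m ≤ y2 ∧ k * m ≡ a [MOD M]) ⊆
      (Ioc U (4 * P)).filter (fun m => P < k * m ∧ k * m ≤ 4 * P) := by
    intro m hm
    rw [mem_filter] at hm ⊢
    exact ⟨hm.1, by omega, by omega⟩
  rw [← Finset.sum_subset h3]
  · refine Finset.sum_congr rfl fun m hm => ?_
    rw [mem_filter] at hm
    unfold FF
    rw [if_pos hm.2]
  · intro m hm1 hm2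
    rw [mem_filter] at hm1 hm2
    unfold FF
    rw [if_neg (fun h => hm2 ⟨hm1.1, h⟩), mul_zero]

/-- **Primes twisted by characters of small conductor, in a fixed class.** -/
theorem ls_primes : ∃ C : ℝ, 0 < C ∧ ∃ P1 : ℕ, ∀ P : ℕ, P1 ≤ P → ∀ M F a y1 y2 : ℕ, 1 ≤ M →
    (M : ℝ) ≤ (P : ℝ) ^ (1 / 20 : ℝ) → (F : ℝ) ≤ (P : ℝ) ^ (1 / 50 : ℝ) → a.Coprime M →
    P ≤ y1 → y1 ≤ y2 → y2 ≤ 4 * P →
    ps M F (fun _ χ => ‖∑ q ∈ (Ioc y1 y2).filter (fun q => q ≡ a [MOD M]),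
      ((ArithmeticFunction.vonMangoldt q : ℝ) : ℂ) * χ q‖) ≤ C * (Real.log P) ^ 2 * (P / M) := by
  refine ⟨40000, by norm_num, 2 ^ 100, ?_⟩
  intro P hP1 M F a y1 y2 hM1 hM hF ha hy1 hy12 hy2
  have hPr : (2 : ℝ) ^ 100 ≤ P := by exact_mod_cast hP1
  have hP0 : (0 : ℝ) < P := lt_of_lt_of_le (by positivity) hPr
  have hPn : 1 ≤ P := le_trans (Nat.one_le_two_pow) hP1
  have hM0 : (0 : ℝ) < M := by exact_mod_cast hM1
  rcases lt_or_ge F 2 with hF2 | hF2
  · unfold ps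
    rw [mods_empty hF2, Finset.sum_empty]
    positivity
  set t : ℝ := (P : ℝ) ^ (1 / 100 : ℝ) with ht
  have ht0 : 0 < t := by positivity
  have htP : (P : ℝ) = t ^ 100 := by
    rw [ht, ← Real.rpow_natCast, ← Real.rpow_mul hP0.le]
    norm_num
  have ht2 : 2 ≤ t := by
    by_contra hcon
    have h1 : t ^ 100 < 2 ^ 100 := pow_lt_pow_left₀ (not_le.1 hcon) ht0.le (by norm_num)
    rw [← htP] at h1
    linarith
  have ht1 : 1 ≤ t := by linarith
  have hMt : (M : ℝ) ≤ t ^ 5 := by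
    refine hM.trans (le_of_eq ?_)
    rw [ht, ← Real.rpow_natCast, ← Real.rpow_mul hP0.le]
    norm_num
  have hFt : (F : ℝ) ≤ t ^ 2 := by
    refine hF.trans (le_of_eq ?_)
    rw [ht, ← Real.rpow_natCast, ← Real.rpow_mul hP0.le]
    norm_num
  set U : ℕ := ⌊t ^ 25⌋₊ with hU
  set R : ℕ := ⌈t ^ 5⌉₊ with hR
  have hU1 : (U : ℝ) ≤ t ^ 25 := Nat.floor_le (by positivity)
  have h25 : (2 : ℝ) ≤ t ^ 25 := by
    calc (2 : ℝ) ≤ t := ht2
      _ ≤ t ^ 25 := le_self_pow₀ ht1 (by norm_num)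
  have hU2 : t ^ 25 / 2 ≤ U := by
    have h1 := Nat.lt_floor_add_one (t ^ 25)
    rw [← hU] at h1
    linarith
  have hUn : 1 ≤ U := by
    rw [hU]
    exact Nat.le_floor (by push_cast; linarith)
  have hR1 : t ^ 5 ≤ R := Nat.le_ceil _
  have hR2 : (R : ℝ) ≤ 2 * t ^ 5 := by
    have h1 := Nat.ceil_lt_add_one (a := t ^ 5) (by positivity)
    rw [← hR] at h1
    have : 1 ≤ t ^ 5 := one_le_pow₀ ht1
    linarith
  have hRn : 1 ≤ R := by
    rw [hR, Nat.one_le_ceil_iff]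
    positivity
  have hRU : R ≤ U := by
    have h1 : (R : ℝ) ≤ U := by
      refine hR2.trans (le_trans ?_ hU2)
      have h2 : (4 : ℝ) ≤ t ^ 20 := by
        calc (4 : ℝ) ≤ t ^ 2 := by nlinarith
          _ ≤ t ^ 20 := pow_le_pow_right₀ ht1 (by norm_num)
      have h3 : t ^ 25 = t ^ 5 * t ^ 20 := by ring
      have h4 : 0 < t ^ 5 := by positivity
      rw [h3]
      nlinarith
    exact_mod_cast h1
  have hUU : (U : ℝ) * U ≤ t ^ 50 := by
    calc (U : ℝ) * U ≤ t ^ 25 * t ^ 25 := mul_le_mul hU1 hU1 (by positivity) (by positivity)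
      _ = t ^ 50 := by ring
  have hUUP : U * U ≤ P := by
    have h1 : (U : ℝ) * U ≤ P := by
      refine hUU.trans ?_
      rw [htP]
      exact pow_le_pow_right₀ ht1 (by norm_num)
    exact_mod_cast h1
  have hUP : U ≤ P := le_trans (Nat.le_mul_of_pos_left U (by omega)) hUUP
  set L : ℝ := Real.log (4 * P) with hL
  have hl4 : Real.log 4 ≤ Real.log P := Real.log_le_log (by norm_num) (by
    refine le_trans ?_ hPr
    norm_num)
  have hlP : 4 ≤ Real.log P := by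
    have h1 : Real.log ((2 : ℝ) ^ 100) ≤ Real.log P := Real.log_le_log (by positivity) hPr
    rw [Real.log_pow] at h1
    have := Real.log_two_gt_d9
    push_cast at h1
    linarith
  have hL2 : L ≤ 2 * Real.log P := by
    rw [hL, Real.log_mul (by norm_num) hP0.ne']
    linarith
  have hL0 : Real.log P ≤ L := by
    rw [hL, Real.log_mul (by norm_num) hP0.ne']
    have : 0 ≤ Real.log 4 := Real.log_nonneg (by norm_num)
    linarith
  have hLnn : 0 ≤ L := by linarith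
  obtain ⟨c, b, hc, hb, hv⟩ := vaughan U U P hUn hUP
  -- number of dyadic blocks
  obtain ⟨n, hn1, hn2⟩ : ∃ n : ℕ, 4 * P ≤ 2 ^ n ∧ (n : ℝ) ≤ 3 * L := by
    refine ⟨Nat.clog 2 (4 * P), Nat.le_pow_clog (by norm_num) _, ?_⟩
    have h1 : 1 < 4 * P := by omega
    have h2 : 2 ^ (Nat.clog 2 (4 * P) - 1) < 4 * P := Nat.pow_pred_clog_lt_self (by norm_num) h1
    have h3 : 0 < Nat.clog 2 (4 * P) := Nat.clog_pos (by norm_num) h1
    have h4 : (2 : ℝ) ^ (Nat.clog 2 (4 * P) - 1) < 4 * P := by exact_mod_cast h2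
    have h5 := Real.log_lt_log (by positivity) h4
    rw [Real.log_pow, ← hL, Nat.cast_sub h3] at h5
    have h6 := Real.log_two_gt_d9
    have h7 : (0 : ℝ) ≤ (Nat.clog 2 (4 * P) : ℝ) - 1 := by
      have : (1 : ℝ) ≤ Nat.clog 2 (4 * P) := by exact_mod_cast h3
      linarith
    push_cast at h5
    nlinarith
  have hn3 : 4 * P ≤ U * 2 ^ n * U := by
    calc 4 * P ≤ 2 ^ n := hn1
      _ ≤ U * 2 ^ n := Nat.le_mul_of_pos_left _ (by omega)
      _ ≤ U * 2 ^ n * U := Nat.le_mul_of_pos_right _ (by omega)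
  have hT2 := type2 (M := M) (F := F) (a := a) (P := P) (U := U) (V := U) (y1 := y1) (y2 := y2)
    (R := R) (n := n) hM1 (by omega) ha hRn hRU hUn hy12 hy2 hn3
    (fun k => ((ArithmeticFunction.moebius k : ℤ) : ℂ)) (fun m => ((b m : ℝ) : ℂ))
    (B := L) (D := 3232 * L * (P / M)) hLnn (by
      intro k
      rw [Complex.norm_intCast]
      have := ArithmeticFunction.abs_moebius_le_one (n := k)
      exact_mod_cast this) (by
      intro m hm
      rw [Complex.norm_real, Real.norm_eq_abs]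
      refine (hb m).trans ?_
      rcases Nat.eq_zero_or_pos m with h0 | h0
      · rw [h0]; simpa using hLnn
      · refine Real.log_le_log (by exact_mod_cast h0) ?_
        exact_mod_cast hm) (by positivity) (by
      intro K hK1 hK2
      refine main_block ht2 htP hU2 (by exact_mod_cast hM1) hMt hR1 hR2 (Nat.cast_nonneg _) hFt
        hLnn (by exact_mod_cast hK1) ?_
      exact_mod_cast hK2)
  -- the linear sums
  have hT1 : ∀ f ∈ mods M F, ∀ χ ∈ prim f,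
      ‖∑ q ∈ (Ioc y1 y2).filter (fun q => q ≡ a [MOD M]),
        ((ArithmeticFunction.vonMangoldt q : ℝ) : ℂ) * χ q‖ ≤
      3 * t ^ 52 * L * 1 + ‖∑ k ∈ Ioc U (4 * P), ∑ m ∈ (Ioc U (4 * P)).filter
        (fun m => y1 < k * m ∧ k * m ≤ y2 ∧ k * m ≡ a [MOD M]),
        ((ArithmeticFunction.moebius k : ℤ) : ℂ) * ((b m : ℝ) : ℂ) * χ ((k * m : ℕ))‖ := by
    intro f hf χ hχ
    rw [mem_mods] at hf
    rw [mem_prim (by omega)] at hχ
    rw [decomp χ c b hv hy1 hy2]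
    refine (norm_add_le _ _).trans (add_le_add_left ?_ _)
    refine (norm_sub_le _ _).trans ?_
    have hff : (f : ℝ) ≤ t ^ 2 := le_trans (by exact_mod_cast hf.2.1) hFt
    have h1 : ‖∑ d ∈ Icc 1 U, ((ArithmeticFunction.moebius d : ℤ) : ℂ) *
        ∑ m ∈ (Icc 1 (4 * P)).filter (fun m => P < d * m ∧ d * m ≤ 4 * P),
          ((Real.log m : ℝ) : ℂ) * FF χ M a y1 y2 (d * m)‖ ≤ U * (2 * t ^ 2 * L) := by
      refine (norm_sum_le _ _).trans ?_
      have h2 : ∀ d ∈ Icc 1 U, ‖((ArithmeticFunction.moebius d : ℤ) : ℂ) *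
          ∑ m ∈ (Icc 1 (4 * P)).filter (fun m => P < d * m ∧ d * m ≤ 4 * P),
            ((Real.log m : ℝ) : ℂ) * FF χ M a y1 y2 (d * m)‖ ≤ 2 * t ^ 2 * L := by
        intro d hd
        rw [mem_Icc] at hd
        rw [norm_mul]
        have h3 : ‖((ArithmeticFunction.moebius d : ℤ) : ℂ)‖ ≤ 1 := by
          rw [Complex.norm_intCast]
          have := ArithmeticFunction.abs_moebius_le_one (n := d)
          exact_mod_cast this
        have h4 := (type1 hf.1 hM1 hf.2.2 hχ ha hd.1 hPn hy1 hy12 hy2).2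
        have h5 : 2 * (f : ℝ) * Real.log (4 * P) ≤ 2 * t ^ 2 * L := by
          rw [← hL]
          gcongr
        calc _ ≤ 1 * (2 * (f : ℝ) * Real.log (4 * P)) :=
              mul_le_mul h3 h4 (norm_nonneg _) zero_le_one
          _ ≤ _ := by rw [one_mul]; exact h5
      refine (Finset.sum_le_sum h2).trans ?_
      rw [Finset.sum_const, nsmul_eq_mul, Nat.card_Icc]
      simp
    have h6 : ‖∑ d ∈ Icc 1 (U * U), ((c d : ℝ) : ℂ) *
        ∑ m ∈ (Icc 1 (4 * P)).filter (fun m => P < d * m ∧ d * m ≤ 4 * P),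
          FF χ M a y1 y2 (d * m)‖ ≤ (U * U : ℕ) * (L * t ^ 2) := by
      refine (norm_sum_le _ _).trans ?_
      have h2 : ∀ d ∈ Icc 1 (U * U), ‖((c d : ℝ) : ℂ) *
          ∑ m ∈ (Icc 1 (4 * P)).filter (fun m => P < d * m ∧ d * m ≤ 4 * P),
            FF χ M a y1 y2 (d * m)‖ ≤ L * t ^ 2 := by
        intro d hd
        rw [mem_Icc] at hd
        rw [norm_mul]
        have h3 : ‖((c d : ℝ) : ℂ)‖ ≤ L := by
          rw [Complex.norm_real, Real.norm_eq_abs]
          refine (hc d).trans ?_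
          refine Real.log_le_log (by exact_mod_cast hd.1) ?_
          have : d ≤ 4 * P := by omega
          exact_mod_cast this
        have h4 := (type1 hf.1 hM1 hf.2.2 hχ ha hd.1 hPn hy1 hy12 hy2).1
        exact mul_le_mul h3 (h4.trans hff) (norm_nonneg _) hLnn
      refine (Finset.sum_le_sum h2).trans ?_
      rw [Finset.sum_const, nsmul_eq_mul, Nat.card_Icc]
      simp
    have h7 : (U : ℝ) * (2 * t ^ 2 * L) ≤ 2 * t ^ 52 * L := by
      have h8 : (U : ℝ) * (2 * t ^ 2 * L) ≤ t ^ 25 * (2 * t ^ 2 * L) :=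
        mul_le_mul_of_nonneg_right hU1 (by positivity)
      have h9 : t ^ 25 * (2 * t ^ 2 * L) = 2 * t ^ 27 * L := by ring
      have h10 : t ^ 27 ≤ t ^ 52 := pow_le_pow_right₀ ht1 (by norm_num)
      have h11 : 2 * t ^ 27 * L ≤ 2 * t ^ 52 * L := by gcongr
      linarith
    have h8 : ((U * U : ℕ) : ℝ) * (L * t ^ 2) ≤ t ^ 52 * L := by
      push_cast
      calc (U : ℝ) * U * (L * t ^ 2) ≤ t ^ 50 * (L * t ^ 2) :=
            mul_le_mul_of_nonneg_right hUU (by positivity)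
        _ = t ^ 52 * L := by ring
    linarith
  refine (ps_mono hT1).trans ?_
  rw [ps_add (fun _ _ => 3 * t ^ 52 * L * 1)]
  have hlin : ps M F (fun _ _ => 3 * t ^ 52 * L * 1) ≤ 3 * t ^ 56 * L := by
    rw [ps_mul]
    calc 3 * t ^ 52 * L * ps M F (fun _ _ => 1) ≤ 3 * t ^ 52 * L * (F : ℝ) ^ 2 :=
          mul_le_mul_of_nonneg_left (ps_one_le M F) (by positivity)
      _ ≤ 3 * t ^ 52 * L * (t ^ 2) ^ 2 := by gcongr
      _ = 3 * t ^ 56 * L := by ring
  have hlin2 : 3 * t ^ 56 * L ≤ L * L * (P / M) := by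
    have h1 : t ^ 95 ≤ P / M := by
      rw [le_div_iff₀ hM0, htP]
      calc t ^ 95 * M ≤ t ^ 95 * t ^ 5 := by gcongr
        _ = t ^ 100 := by ring
    have h2 : t ^ 56 ≤ t ^ 95 := pow_le_pow_right₀ ht1 (by norm_num)
    have h3 : (3 : ℝ) ≤ L := by linarith
    have h4 : 0 < t ^ 56 := by positivity
    calc 3 * t ^ 56 * L ≤ L * t ^ 56 * L := by gcongr
      _ = L * L * t ^ 56 := by ring
      _ ≤ L * L * (P / M) := by
          refine mul_le_mul_of_nonneg_left (h2.trans h1) (by positivity)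
  have hPM : 0 ≤ (P : ℝ) / M := by positivity
  have hbil : (n : ℝ) * (3232 * L * (P / M)) ≤ 9696 * (L * L * (P / M)) := by
    calc (n : ℝ) * (3232 * L * (P / M)) ≤ (3 * L) * (3232 * L * (P / M)) := by
          refine mul_le_mul_of_nonneg_right hn2 (by positivity)
      _ = 9696 * (L * L * (P / M)) := by ring
  have hLL : L * L ≤ 4 * Real.log P ^ 2 := by nlinarith
  have hfin : 9697 * (L * L * (P / M)) ≤ 40000 * Real.log P ^ 2 * (P / M) := by
    calc 9697 * (L * L * (P / M)) = 9697 * (L * L) * (P / M) := by ring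
      _ ≤ 9697 * (4 * Real.log P ^ 2) * (P / M) := by gcongr
      _ ≤ 40000 * Real.log P ^ 2 * (P / M) := by
          refine mul_le_mul_of_nonneg_right ?_ hPM
          have : 0 ≤ Real.log P ^ 2 := sq_nonneg _
          linarith
  linarith [hT2]

end Pool.Agent.ATL
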