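import Pool.Agent.ATL.Defs

/-!
# ATL-Cnt: counting in residue classes

`card_cong`: a finite set of integers in the real interval `(u, v]`, all congruent modulo `M`, has at most `(v-u)/M + 1` elements
(e.g. map `m ↦ m / M` injectively to integers; the difference of max and min is at least `M (card - 1)`).
`card_mul`: `k m ≡ k m' [MOD M]`, `(k, M) = 1` gives `m ≡ m'`; if `(k, M) > 1` the set is empty, as `(a, M) = 1`.
`bdry`: if exactly one of the two conditions holds then `k0 m ≤ y < k m` with `y = y1` or `y = y2`, i.e. `y / k < m ≤ y / k0`, an interval of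
length `y (k - k0) / (k k0) ≤ 4 P H / k0^2`.
-/

set_option autoImplicit false

namespace Pool.Agent.ATL

open Finset Pool.Agent.Helper98.Bern

theorem card_cong {M : ℕ} (hM : 1 ≤ M) {u v : ℝ} (huv : u ≤ v) (S : Finset ℕ)
    (hS : ∀ m ∈ S, u < m ∧ (m : ℝ) ≤ v) (hc : ∀ m ∈ S, ∀ m' ∈ S, m ≡ m' [MOD M]) :
    (S.card : ℝ) ≤ (v - u) / M + 1 := by
  have hM0 : (0 : ℝ) < M := by exact_mod_cast hM
  have hx : 0 ≤ (v - u) / M := div_nonneg (by linarith) hM0.le
  rcases S.eq_empty_or_nonempty with h | h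
  · rw [h, card_empty, Nat.cast_zero]
    linarith
  · set m0 := S.min' h with hm0
    have hm0S : m0 ∈ S := S.min'_mem h
    have hdvd : ∀ m ∈ S, m0 ≤ m ∧ M ∣ m - m0 := fun m hm =>
      ⟨S.min'_le m hm, (Nat.modEq_iff_dvd' (S.min'_le m hm)).1 (hc m0 hm0S m hm)⟩
    have h1 : S.card ≤ (range ⌈(v - u) / M⌉₊).card := by
      refine card_le_card_of_injOn (fun m => (m - m0) / M) ?_ ?_
      · intro m hm
        rw [mem_coe] at hm
        rw [mem_coe, mem_range, Nat.lt_ceil, lt_div_iff₀ hM0]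
        obtain ⟨h2, h3⟩ := hdvd m hm
        have h4 : (m - m0) / M * M = m - m0 := Nat.div_mul_cancel h3
        have h5 : (((m - m0) / M : ℕ) : ℝ) * M = (m : ℝ) - m0 := by
          rw [← Nat.cast_mul, h4, Nat.cast_sub h2]
        rw [h5]
        have h6 := (hS m hm).2
        have h7 := (hS m0 hm0S).1
        linarith
      · intro m hm m' hm' he
        rw [mem_coe] at hm hm'
        simp only at he
        obtain ⟨h2, h3⟩ := hdvd m hm
        obtain ⟨h2', h3'⟩ := hdvd m' hm'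
        have h4 : (m - m0) / M * M = m - m0 := Nat.div_mul_cancel h3
        have h4' : (m' - m0) / M * M = m' - m0 := Nat.div_mul_cancel h3'
        rw [he, h4'] at h4
        omega
    rw [card_range] at h1
    have h2 : (S.card : ℝ) ≤ ⌈(v - u) / M⌉₊ := by exact_mod_cast h1
    exact h2.trans (Nat.ceil_lt_add_one hx).le

theorem card_mul {M a k : ℕ} (hM : 1 ≤ M) (ha : a.Coprime M) {u v : ℝ} (huv : u ≤ v)
    (S : Finset ℕ) (hS : ∀ m ∈ S, u < m ∧ (m : ℝ) ≤ v) (hc : ∀ m ∈ S, k * m ≡ a [MOD M]) :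
    (S.card : ℝ) ≤ (v - u) / M + 1 := by
  rcases S.eq_empty_or_nonempty with h | ⟨m1, hm1⟩
  · have hM0 : (0 : ℝ) < M := by exact_mod_cast hM
    have hx : 0 ≤ (v - u) / M := div_nonneg (by linarith) hM0.le
    rw [h, card_empty, Nat.cast_zero]
    linarith
  · have h1 : (k * m1).Coprime M := by
      have h2 := (hc m1 hm1).gcd_eq
      unfold Nat.Coprime at ha ⊢
      rw [h2]
      exact ha
    have hk : k.Coprime M := Nat.Coprime.coprime_mul_right h1
    refine card_cong hM huv S hS fun m hm m' hm' => ?_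
    have h3 : k * m ≡ k * m' [MOD M] := (hc m hm).trans (hc m' hm').symm
    exact Nat.ModEq.cancel_left_of_coprime hk.symm h3

private theorem cnt_one {M a P k0 H V y k : ℕ} (hM : 1 ≤ M) (ha : a.Coprime M) (hk0 : 1 ≤ k0)
    (hk : k0 < k) (hkH : k ≤ k0 + H) (hy : y ≤ 4 * P) :
    (((Ioc V (4 * P)).filter (fun m => k * m ≡ a [MOD M] ∧ k0 * m ≤ y ∧ y < k * m)).card : ℝ) ≤
      4 * P * H / ((k0 : ℝ) ^ 2 * M) + 1 := by
  have hM0 : (0 : ℝ) < M := by exact_mod_cast hM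
  have hk0' : (0 : ℝ) < k0 := by exact_mod_cast hk0
  have hkk : (k0 : ℝ) < k := by exact_mod_cast hk
  have hk' : (0 : ℝ) < k := by linarith
  have hkH' : (k : ℝ) - k0 ≤ H := by
    have : (k : ℝ) ≤ k0 + H := by exact_mod_cast hkH
    linarith
  have hy' : (y : ℝ) ≤ 4 * P := by exact_mod_cast hy
  have hy0 : (0 : ℝ) ≤ y := Nat.cast_nonneg _
  have h1 := card_mul (u := (y : ℝ) / k) (v := (y : ℝ) / k0) (k := k) hM ha
    (div_le_div_of_nonneg_left hy0 hk0' hkk.le)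
    ((Ioc V (4 * P)).filter (fun m => k * m ≡ a [MOD M] ∧ k0 * m ≤ y ∧ y < k * m))
    (fun m hm => by
      rw [mem_filter] at hm
      obtain ⟨_, _, h2, h3⟩ := hm
      constructor
      · rw [div_lt_iff₀ hk', mul_comm]
        exact_mod_cast h3
      · rw [le_div_iff₀ hk0', mul_comm]
        exact_mod_cast h2)
    (fun m hm => (mem_filter.1 hm).2.1)
  refine h1.trans (add_le_add_left ?_ 1)
  rw [div_le_div_iff₀ hM0 (by positivity)]
  have h2 : (y : ℝ) / k0 - y / k = y * (k - k0) / (k * k0) := by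
    field_simp
  have h3 : (y : ℝ) / k0 - y / k ≤ 4 * P * H / (k0 : ℝ) ^ 2 := by
    rw [h2, div_le_div_iff₀ (by positivity) (by positivity)]
    have h4 : (y : ℝ) * (k - k0) ≤ 4 * P * H :=
      mul_le_mul hy' hkH' (by linarith) (by positivity)
    have h5 : (k0 : ℝ) ^ 2 ≤ k * k0 := by nlinarith
    exact mul_le_mul h4 h5 (by positivity) (by positivity)
  have h6 : 4 * P * H / (k0 : ℝ) ^ 2 * ((k0 : ℝ) ^ 2 * M) = 4 * P * H * M := by
    field_simp
  rw [← h6]
  exact mul_le_mul_of_nonneg_right h3 (by positivity)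

theorem bdry {M a P k0 H V y1 y2 k : ℕ} (hM : 1 ≤ M) (ha : a.Coprime M) (hk0 : 1 ≤ k0)
    (hk : k0 < k) (hkH : k ≤ k0 + H) (hy1 : y1 ≤ y2) (hy2 : y2 ≤ 4 * P) :
    (((Ioc V (4 * P)).filter (fun m => k * m ≡ a [MOD M] ∧
      ¬ ((y1 < k * m ∧ k * m ≤ y2) ↔ (y1 < k0 * m ∧ k0 * m ≤ y2)))).card : ℝ) ≤
      2 * (4 * P * H / ((k0 : ℝ) ^ 2 * M) + 1) := by
  have h1 := cnt_one (V := V) (y := y1) hM ha hk0 hk hkH (hy1.trans hy2)
  have h2 := cnt_one (V := V) (y := y2) hM ha hk0 hk hkH hy2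
  have h3 : (Ioc V (4 * P)).filter (fun m => k * m ≡ a [MOD M] ∧
      ¬ ((y1 < k * m ∧ k * m ≤ y2) ↔ (y1 < k0 * m ∧ k0 * m ≤ y2))) ⊆
      (Ioc V (4 * P)).filter (fun m => k * m ≡ a [MOD M] ∧ k0 * m ≤ y1 ∧ y1 < k * m) ∪
      (Ioc V (4 * P)).filter (fun m => k * m ≡ a [MOD M] ∧ k0 * m ≤ y2 ∧ y2 < k * m) := by
    intro m hm
    rw [mem_filter] at hm
    obtain ⟨hm1, hm2, hm3⟩ := hm
    have h4 : k0 * m ≤ k * m := Nat.mul_le_mul_right m hk.le
    rw [mem_union, mem_filter, mem_filter]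
    by_cases hA : k0 * m ≤ y1 ∧ y1 < k * m
    · exact Or.inl ⟨hm1, hm2, hA⟩
    · by_cases hB : k0 * m ≤ y2 ∧ y2 < k * m
      · exact Or.inr ⟨hm1, hm2, hB⟩
      · exfalso
        apply hm3
        constructor
        · rintro ⟨h5, h6⟩
          refine ⟨?_, h4.trans h6⟩
          by_contra h7
          exact hA ⟨not_lt.1 h7, h5⟩
        · rintro ⟨h5, h6⟩
          refine ⟨h5.trans_le h4, ?_⟩
          by_contra h7
          exact hB ⟨h6, not_le.1 h7⟩
  have h4 : (((Ioc V (4 * P)).filter (fun m => k * m ≡ a [MOD M] ∧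
      ¬ ((y1 < k * m ∧ k * m ≤ y2) ↔ (y1 < k0 * m ∧ k0 * m ≤ y2)))).card : ℝ) ≤
      ((Ioc V (4 * P)).filter (fun m => k * m ≡ a [MOD M] ∧ k0 * m ≤ y1 ∧ y1 < k * m)).card +
      ((Ioc V (4 * P)).filter (fun m => k * m ≡ a [MOD M] ∧ k0 * m ≤ y2 ∧ y2 < k * m)).card := by
    exact_mod_cast (card_le_card h3).trans (card_union_le _ _)
  linarith

end Pool.Agent.ATL
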