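import Pool.Agent.ATL.LSM
import Pool.Agent.ATL.Cnt

/-!
# ATL-Bil: one bilinear block

Split `k ∈ S` by the class `c = k % M ∈ range M`. If `(c, M) > 1` the inner sums are empty (`k m ≡ a`, `(a, M) = 1`). If `(c, M) = 1` let `c'` be an
inverse of `c` mod `M`; the condition is `m ≡ c' a [MOD M]`. So the double sum is `∑_{c} cs (S_c) α χ * cs (T_c) β χ`, with
`S_c = {k ∈ S : k ≡ c}`, `T_c = {m ∈ T : m ≡ c' a}`. `ps_cauchy` and `ls_prog` for each `c` (`∑_{S_c} ‖α‖^2 ≤ card S_c ≤ H/M + 1` by `card_cong`,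
`∑_{T_c} ‖β‖^2 ≤ B^2 (W/M + 1)`); each `c` gives at most `100 B (H/M+1+F^2) (W/M+1+F^2)`, and there are at most `M` classes.
-/

set_option autoImplicit false

namespace Pool.Agent.ATL

open Finset Pool.Agent.Helper98.Bern

private theorem bil_half {M F c0 N0 N : ℕ} (hM : 1 ≤ M) (hF : 1 ≤ F) (u : ℕ → ℂ) {B : ℝ}
    (hB : 0 ≤ B) (S : Finset ℕ) (hS : ∀ n ∈ S, N0 < n ∧ n ≤ N0 + N ∧ n ≡ c0 [MOD M])
    (hu : ∀ n ∈ S, ‖u n‖ ≤ B) :
    √(ps M F (fun _ χ => ‖cs S u χ‖ ^ 2)) ≤ 10 * B * ((N : ℝ) / M + 1 + (F : ℝ) ^ 2) := by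
  have hX : (0 : ℝ) ≤ (N : ℝ) / M + 1 + (F : ℝ) ^ 2 := by positivity
  have h1 := ls_prog hM hF u S hS
  have h2 : (S.card : ℝ) ≤ (N : ℝ) / M + 1 := by
    have h3 := card_cong hM (u := (N0 : ℝ)) (v := (N0 : ℝ) + N) (by
      have : (0 : ℝ) ≤ N := Nat.cast_nonneg _
      linarith) S
      (fun m hm => ⟨by exact_mod_cast (hS m hm).1, by exact_mod_cast (hS m hm).2.1⟩)
      (fun m hm m' hm' => (hS m hm).2.2.trans (hS m' hm').2.2.symm)
    have h4 : (N0 : ℝ) + N - N0 = N := by ring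
    rwa [h4] at h3
  have h3 : ∑ n ∈ S, ‖u n‖ ^ 2 ≤ S.card * B ^ 2 := by
    rw [← nsmul_eq_mul]
    exact Finset.sum_le_card_nsmul _ _ _ fun n hn =>
      pow_le_pow_left₀ (norm_nonneg _) (hu n hn) 2
  rw [Real.sqrt_le_iff]
  refine ⟨by positivity, h1.trans ?_⟩
  have h4 : (S.card : ℝ) * B ^ 2 ≤ ((N : ℝ) / M + 1 + (F : ℝ) ^ 2) * B ^ 2 := by
    apply mul_le_mul_of_nonneg_right _ (sq_nonneg B)
    have : (0 : ℝ) ≤ (F : ℝ) ^ 2 := by positivity
    linarith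
  calc 100 * ((N : ℝ) / M + 1 + (F : ℝ) ^ 2) * ∑ n ∈ S, ‖u n‖ ^ 2
      ≤ 100 * ((N : ℝ) / M + 1 + (F : ℝ) ^ 2) * (((N : ℝ) / M + 1 + (F : ℝ) ^ 2) * B ^ 2) :=
        mul_le_mul_of_nonneg_left (h3.trans h4) (by positivity)
    _ = (10 * B * ((N : ℝ) / M + 1 + (F : ℝ) ^ 2)) ^ 2 := by ring

private theorem bil_split {M a f : ℕ} (hM : 1 ≤ M) (α β : ℕ → ℂ) (S T : Finset ℕ)
    (χ : DirichletCharacter ℂ f) :
    ∑ k ∈ S, ∑ m ∈ T.filter (fun m => k * m ≡ a [MOD M]), α k * β m * χ ((k * m : ℕ)) =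
      ∑ c ∈ range M, cs (S.filter (fun k => k % M = c)) α χ *
        cs (T.filter (fun m => c * m ≡ a [MOD M])) β χ := by
  have h1 : ∑ k ∈ S, ∑ m ∈ T.filter (fun m => k * m ≡ a [MOD M]), α k * β m * χ ((k * m : ℕ)) =
      ∑ c ∈ range M, ∑ k ∈ S.filter (fun k => k % M = c),
        ∑ m ∈ T.filter (fun m => k * m ≡ a [MOD M]), α k * β m * χ ((k * m : ℕ)) := by
    rw [Finset.sum_fiberwise_of_maps_to]
    intro k _
    exact Finset.mem_range.2 (Nat.mod_lt _ (by omega))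
  rw [h1]
  refine Finset.sum_congr rfl fun c _ => ?_
  unfold cs
  rw [Finset.sum_mul_sum]
  refine Finset.sum_congr rfl fun k hk => ?_
  have hk' := (Finset.mem_filter.1 hk).2
  have h2 : T.filter (fun m => k * m ≡ a [MOD M]) = T.filter (fun m => c * m ≡ a [MOD M]) := by
    apply Finset.filter_congr
    intro m _
    have h3 : k * m ≡ c * m [MOD M] := by
      apply Nat.ModEq.mul_right
      rw [← hk']
      exact (Nat.mod_modEq k M).symm
    exact ⟨fun h => h3.symm.trans h, fun h => h3.trans h⟩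
  rw [h2]
  refine Finset.sum_congr rfl fun m _ => ?_
  rw [Nat.cast_mul, map_mul]
  ring

theorem block {M F a k0 H m1 W : ℕ} (hM : 1 ≤ M) (hF : 1 ≤ F) (ha : a.Coprime M)
    (α β : ℕ → ℂ) {B : ℝ} (hB : 0 ≤ B) (S T : Finset ℕ) (hS : S ⊆ Ioc k0 (k0 + H))
    (hT : T ⊆ Ioc m1 (m1 + W)) (hα : ∀ k ∈ S, ‖α k‖ ≤ 1) (hβ : ∀ m ∈ T, ‖β m‖ ≤ B) :
    ps M F (fun _ χ => ‖∑ k ∈ S, ∑ m ∈ T.filter (fun m => k * m ≡ a [MOD M]),
      α k * β m * χ ((k * m : ℕ))‖) ≤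
      100 * M * B * ((H : ℝ) / M + 1 + (F : ℝ) ^ 2) * ((W : ℝ) / M + 1 + (F : ℝ) ^ 2) := by
  have h1 : ps M F (fun _ χ => ‖∑ k ∈ S, ∑ m ∈ T.filter (fun m => k * m ≡ a [MOD M]),
      α k * β m * χ ((k * m : ℕ))‖) ≤
      ps M F (fun _ χ => ∑ c ∈ range M, ‖cs (S.filter (fun k => k % M = c)) α χ‖ *
        ‖cs (T.filter (fun m => c * m ≡ a [MOD M])) β χ‖) := by
    apply ps_mono
    intro f _ χ _
    rw [bil_split hM α β S T χ]
    refine (norm_sum_le _ _).trans (Finset.sum_le_sum fun c _ => ?_)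
    rw [norm_mul]
  refine h1.trans ?_
  rw [ps_sum]
  have h2 : ∀ c ∈ range M, ps M F (fun _ χ => ‖cs (S.filter (fun k => k % M = c)) α χ‖ *
      ‖cs (T.filter (fun m => c * m ≡ a [MOD M])) β χ‖) ≤
      100 * B * ((H : ℝ) / M + 1 + (F : ℝ) ^ 2) * ((W : ℝ) / M + 1 + (F : ℝ) ^ 2) := by
    intro c hc
    have hcM := Finset.mem_range.1 hc
    have h3 := bil_half hM hF α zero_le_one (N0 := k0) (N := H) (c0 := c)
      (S.filter (fun k => k % M = c)) (by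
        intro n hn
        rw [Finset.mem_filter] at hn
        have h4 := Finset.mem_Ioc.1 (hS hn.1)
        refine ⟨h4.1, h4.2, ?_⟩
        unfold Nat.ModEq
        rw [hn.2, Nat.mod_eq_of_lt hcM])
      (fun n hn => hα n (Finset.mem_filter.1 hn).1)
    obtain ⟨c0, hc0⟩ : ∃ c0, ∀ m ∈ T.filter (fun m => c * m ≡ a [MOD M]), m ≡ c0 [MOD M] := by
      rcases (T.filter (fun m => c * m ≡ a [MOD M])).eq_empty_or_nonempty with h0 | ⟨m0, hm0⟩
      · exact ⟨0, fun m hm => absurd hm (by rw [h0]; simp)⟩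
      · refine ⟨m0, fun m hm => ?_⟩
        rw [Finset.mem_filter] at hm0 hm
        have h5 : c * m ≡ c * m0 [MOD M] := hm.2.trans hm0.2.symm
        refine Nat.ModEq.cancel_left_of_coprime ?_ h5
        have h6 : (c * m0).Coprime M := by
          have h7 : Nat.gcd M (c * m0) = Nat.gcd M a := by
            rw [Nat.gcd_comm M (c * m0), Nat.gcd_comm M a]
            exact hm0.2.gcd_eq
          have h8 : Nat.gcd M a = 1 := by rw [Nat.gcd_comm]; exact ha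
          rw [Nat.coprime_comm]
          exact h7.trans h8
        exact (Nat.Coprime.coprime_mul_right h6).symm
    have h4 := bil_half hM hF β hB (N0 := m1) (N := W) (c0 := c0)
      (T.filter (fun m => c * m ≡ a [MOD M])) (by
        intro n hn
        have h5 := Finset.mem_Ioc.1 (hT (Finset.mem_filter.1 hn).1)
        exact ⟨h5.1, h5.2, hc0 n hn⟩)
      (fun n hn => hβ n (Finset.mem_filter.1 hn).1)
    refine (ps_cauchy M F _ _).trans ?_
    calc √(ps M F (fun f χ => ‖cs (S.filter (fun k => k % M = c)) α χ‖ ^ 2)) *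
          √(ps M F (fun f χ => ‖cs (T.filter (fun m => c * m ≡ a [MOD M])) β χ‖ ^ 2))
        ≤ (10 * 1 * ((H : ℝ) / M + 1 + (F : ℝ) ^ 2)) *
          (10 * B * ((W : ℝ) / M + 1 + (F : ℝ) ^ 2)) :=
          mul_le_mul h3 h4 (Real.sqrt_nonneg _) (by positivity)
      _ = 100 * B * ((H : ℝ) / M + 1 + (F : ℝ) ^ 2) * ((W : ℝ) / M + 1 + (F : ℝ) ^ 2) := by ring
  refine (Finset.sum_le_card_nsmul _ _ _ h2).trans ?_
  rw [Finset.card_range, nsmul_eq_mul]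
  apply le_of_eq
  ring

end Pool.Agent.ATL
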