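import Mathlib
import Pool.Agent.Helper98.Bern.Defs

/-!
# Project ATL: primes in a fixed residue class modulo `M`, twisted by characters of small conductor

Main theorem (`Pool.Agent.ATL.Main`): for `M ≤ P^(1/20)`, `F ≤ P^(1/50)`, the sum over ALL primitive characters `χ` of all
moduli `2 ≤ f ≤ F` prime to `M` of `|∑_{y1 < q ≤ y2, q ≡ a mod M} Λ(q) χ(q)|` is `O((log P)^5 P / M)`. Large sieve + Vaughan; no
zeros of `L`-functions.
-/

set_option autoImplicit false

namespace Pool.Agent.ATL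

open Finset Pool.Agent.Helper98.Bern

open Classical in
/-- The primitive characters modulo `f`. -/
noncomputable def prim (f : ℕ) : Finset (DirichletCharacter ℂ f) :=
  if h : {χ : DirichletCharacter ℂ f | χ.IsPrimitive}.Finite then h.toFinset else ∅

/-- The sum of a sequence against a character. -/
noncomputable def cs {f : ℕ} (S : Finset ℕ) (u : ℕ → ℂ) (χ : DirichletCharacter ℂ f) : ℂ :=
  ∑ n ∈ S, u n * χ n

/-- The moduli `2 ≤ f ≤ F` prime to `M`. -/
def mods (M F : ℕ) : Finset ℕ := (Icc 2 F).filter fun f => f.Coprime M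

/-- The sum over all primitive characters of the moduli in `mods M F`. -/
noncomputable def ps (M F : ℕ) (Φ : (f : ℕ) → DirichletCharacter ℂ f → ℝ) : ℝ :=
  ∑ f ∈ mods M F, ∑ χ ∈ prim f, Φ f χ

theorem mem_prim {f : ℕ} (hf : f ≠ 0) {χ : DirichletCharacter ℂ f} :
    χ ∈ prim f ↔ χ.IsPrimitive := by
  have : NeZero f := ⟨hf⟩
  have h : {χ : DirichletCharacter ℂ f | χ.IsPrimitive}.Finite := Set.toFinite _
  unfold prim
  rw [dif_pos h, Set.Finite.mem_toFinset, Set.mem_ofPred_eq]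

theorem mem_mods {M F f : ℕ} : f ∈ mods M F ↔ 2 ≤ f ∧ f ≤ F ∧ f.Coprime M := by
  unfold mods
  rw [mem_filter, mem_Icc, and_assoc]

theorem ps_mono {M F : ℕ} {Φ Ψ : (f : ℕ) → DirichletCharacter ℂ f → ℝ}
    (h : ∀ f ∈ mods M F, ∀ χ ∈ prim f, Φ f χ ≤ Ψ f χ) : ps M F Φ ≤ ps M F Ψ := by
  unfold ps
  exact Finset.sum_le_sum fun f hf => Finset.sum_le_sum fun χ hχ => h f hf χ hχ

theorem ps_add {M F : ℕ} (Φ Ψ : (f : ℕ) → DirichletCharacter ℂ f → ℝ) :
    ps M F (fun f χ => Φ f χ + Ψ f χ) = ps M F Φ + ps M F Ψ := by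
  unfold ps
  simp only [Finset.sum_add_distrib]

theorem ps_mul {M F : ℕ} (c : ℝ) (Φ : (f : ℕ) → DirichletCharacter ℂ f → ℝ) :
    ps M F (fun f χ => c * Φ f χ) = c * ps M F Φ := by
  unfold ps
  simp only [← Finset.mul_sum]

theorem ps_sum {M F : ℕ} {ι : Type*} (s : Finset ι)
    (Φ : ι → (f : ℕ) → DirichletCharacter ℂ f → ℝ) :
    ps M F (fun f χ => ∑ i ∈ s, Φ i f χ) = ∑ i ∈ s, ps M F (Φ i) := by
  unfold ps
  rw [Finset.sum_comm]
  refine Finset.sum_congr rfl fun f _ => ?_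
  rw [Finset.sum_comm]

theorem ps_nonneg {M F : ℕ} {Φ : (f : ℕ) → DirichletCharacter ℂ f → ℝ}
    (h : ∀ f ∈ mods M F, ∀ χ ∈ prim f, 0 ≤ Φ f χ) : 0 ≤ ps M F Φ := by
  unfold ps
  exact Finset.sum_nonneg fun f hf => Finset.sum_nonneg fun χ hχ => h f hf χ hχ

theorem ps_cauchy (M F : ℕ) (A B : (f : ℕ) → DirichletCharacter ℂ f → ℂ) :
    ps M F (fun f χ => ‖A f χ‖ * ‖B f χ‖) ≤
      √(ps M F (fun f χ => ‖A f χ‖ ^ 2)) * √(ps M F (fun f χ => ‖B f χ‖ ^ 2)) := by
  unfold ps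
  rw [Finset.sum_sigma', Finset.sum_sigma', Finset.sum_sigma']
  exact Real.sum_mul_le_sqrt_mul_sqrt _ _ _

/-- The twisted indicator function of `(y1, y2]` and of the class `a` modulo `M`. -/
noncomputable def FF {f : ℕ} (χ : DirichletCharacter ℂ f) (M a y1 y2 q : ℕ) : ℂ :=
  if y1 < q ∧ q ≤ y2 ∧ q ≡ a [MOD M] then χ q else 0

/-- The number of characters in `ps` is at most `F ^ 2`. -/
theorem ps_one_le (M F : ℕ) : ps M F (fun _ _ => 1) ≤ (F : ℝ) ^ 2 := by
  unfold ps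
  have h1 : ∀ f ∈ mods M F, ∑ χ ∈ prim f, (1 : ℝ) ≤ F := by
    intro f hf
    rw [mem_mods] at hf
    have hf0 : f ≠ 0 := by omega
    have : NeZero f := ⟨hf0⟩
    rw [Finset.sum_const, nsmul_eq_mul, mul_one]
    have h2 : (prim f).card ≤ Fintype.card (DirichletCharacter ℂ f) := Finset.card_le_univ _
    have h3 : Fintype.card (DirichletCharacter ℂ f) = f.totient := by
      rw [← Nat.card_eq_fintype_card]
      exact DirichletCharacter.card_eq_totient_of_hasEnoughRootsOfUnity ℂ f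
    have h4 : f.totient ≤ f := Nat.totient_le f
    exact_mod_cast (h2.trans (h3.le.trans (h4.trans hf.2.1)))
  calc ∑ f ∈ mods M F, ∑ χ ∈ prim f, (1 : ℝ) ≤ ∑ f ∈ mods M F, (F : ℝ) := Finset.sum_le_sum h1
    _ = (mods M F).card * F := by rw [Finset.sum_const, nsmul_eq_mul]
    _ ≤ F * F := by
        have : (mods M F).card ≤ F := by
          unfold mods
          refine (Finset.card_filter_le _ _).trans ?_
          rw [Nat.card_Icc]
          omega
        have h5 : ((mods M F).card : ℝ) ≤ F := by exact_mod_cast this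
        exact mul_le_mul_of_nonneg_right h5 (Nat.cast_nonneg _)
    _ = (F : ℝ) ^ 2 := by ring

end Pool.Agent.ATL
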