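import Pool.Agent.ATL.Defs
import Pool.Agent.Bern2.LSI

/-!
# ATL-Dual: the dual form of the large sieve inequality

`Pool.Agent.Bern2` `large_sieve` (namespace: see the file) is `∑ n ‖∑ i c i e(n β i)‖^2 ≤ 100 (N + 1/δ) ∑ ‖c i‖^2`. Duality: with
`z i = ∑ n u n e(n β i)`, `Z = ∑ ‖z i‖^2 = ∑ n u n (∑ i conj (z i) e(n β i))`, so by Cauchy-Schwarz
`Z^2 ≤ (∑ ‖u n‖^2) * (100 (N + 1/δ) Z)`.
-/

set_option autoImplicit false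

namespace Pool.Agent.ATL

open Finset Pool.Agent.Helper98.Bern

theorem dual_ls {ι : Type*} (s : Finset ι) (β : ι → ℝ) (δ : ℝ) (hδ : 0 < δ)
    (hsep : ∀ i ∈ s, ∀ j ∈ s, i ≠ j → ∀ k : ℤ, δ ≤ |β i - β j - k|) (N : ℕ) (u : ℕ → ℂ) :
    ∑ i ∈ s, ‖∑ n ∈ Icc 1 N, u n * ee ((n : ℝ) * β i)‖ ^ 2 ≤
      100 * ((N : ℝ) + 1 / δ) * ∑ n ∈ Icc 1 N, ‖u n‖ ^ 2 := by
  set z : ι → ℂ := fun i => ∑ n ∈ Icc 1 N, u n * ee ((n : ℝ) * β i) with hz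
  set Z : ℝ := ∑ i ∈ s, ‖z i‖ ^ 2 with hZ
  set U : ℝ := ∑ n ∈ Icc 1 N, ‖u n‖ ^ 2 with hU
  set C : ℝ := 100 * ((N : ℝ) + 1 / δ) with hC
  have hC0 : 0 ≤ C := by positivity
  have hU0 : 0 ≤ U := Finset.sum_nonneg fun _ _ => by positivity
  have hZ0 : 0 ≤ Z := Finset.sum_nonneg fun _ _ => by positivity
  set T : ℕ → ℂ := fun n => ∑ i ∈ s, (starRingEnd ℂ) (z i) * ee ((n : ℝ) * β i) with hT
  have h1 : (Z : ℂ) = ∑ n ∈ Icc 1 N, u n * T n := by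
    have h2 : ∀ i ∈ s, ((‖z i‖ ^ 2 : ℝ) : ℂ) =
        ∑ n ∈ Icc 1 N, u n * ((starRingEnd ℂ) (z i) * ee ((n : ℝ) * β i)) := by
      intro i _
      have h3 : ((‖z i‖ ^ 2 : ℝ) : ℂ) = (starRingEnd ℂ) (z i) * z i := by
        rw [Complex.ofReal_pow, ← Complex.mul_conj', mul_comm]
      rw [h3]
      have h4 : z i = ∑ n ∈ Icc 1 N, u n * ee ((n : ℝ) * β i) := rfl
      calc (starRingEnd ℂ) (z i) * z i
          = (starRingEnd ℂ) (z i) * ∑ n ∈ Icc 1 N, u n * ee ((n : ℝ) * β i) := by rw [← h4]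
        _ = ∑ n ∈ Icc 1 N, u n * ((starRingEnd ℂ) (z i) * ee ((n : ℝ) * β i)) := by
          rw [Finset.mul_sum]
          refine Finset.sum_congr rfl fun n _ => ?_
          ring
    rw [hZ, Complex.ofReal_sum, Finset.sum_congr rfl h2, Finset.sum_comm]
    refine Finset.sum_congr rfl fun n _ => ?_
    rw [hT, Finset.mul_sum]
  have h5 : Z ≤ ∑ n ∈ Icc 1 N, ‖u n‖ * ‖T n‖ := by
    calc Z = ‖(Z : ℂ)‖ := by rw [Complex.norm_real, Real.norm_of_nonneg hZ0]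
      _ ≤ ∑ n ∈ Icc 1 N, ‖u n * T n‖ := by rw [h1]; exact norm_sum_le _ _
      _ = ∑ n ∈ Icc 1 N, ‖u n‖ * ‖T n‖ := by simp only [norm_mul]
  have h6 : Z ^ 2 ≤ U * ∑ n ∈ Icc 1 N, ‖T n‖ ^ 2 := by
    calc Z ^ 2 ≤ (∑ n ∈ Icc 1 N, ‖u n‖ * ‖T n‖) ^ 2 := pow_le_pow_left₀ hZ0 h5 2
      _ ≤ (∑ n ∈ Icc 1 N, ‖u n‖ ^ 2) * ∑ n ∈ Icc 1 N, ‖T n‖ ^ 2 :=
        Finset.sum_mul_sq_le_sq_mul_sq _ _ _
  have h7 : ∑ n ∈ Icc 1 N, ‖T n‖ ^ 2 ≤ C * Z := by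
    have h8 := Pool.Agent.Bern2.large_sieve s β δ hδ hsep (fun i => (starRingEnd ℂ) (z i)) N
    have h9 : ∑ i ∈ s, ‖(starRingEnd ℂ) (z i)‖ ^ 2 = Z :=
      Finset.sum_congr rfl fun i _ => by rw [RCLike.norm_conj]
    rw [h9] at h8
    exact h8
  have h10 : Z * Z ≤ (C * U) * Z := by
    calc Z * Z = Z ^ 2 := by ring
      _ ≤ U * ∑ n ∈ Icc 1 N, ‖T n‖ ^ 2 := h6
      _ ≤ U * (C * Z) := mul_le_mul_of_nonneg_left h7 hU0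
      _ = (C * U) * Z := by ring
  rcases hZ0.eq_or_lt with h | h
  · rw [← h]
    exact mul_nonneg hC0 hU0
  · exact le_of_mul_le_mul_right h10 h

end Pool.Agent.ATL
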