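import Pool.Agent.ATL.Bil

/-!
# ATL-Dyad: one dyadic range of the bilinear form

`H = K / R + 1 ≤ 2 K / R`; pieces `I_j = Ioc (K + j H) (K + (j+1) H) ∩ Ioc K (2K)`, `j < R`, cover `Ioc K (2K)` (`R H ≥ K`). Put `k_j = K + j H`. In the
piece `j` replace the condition `y1 < k m ≤ y2` by `y1 < k_j m ≤ y2`.
* new sums: `block` with `S = I_j`, `T = {m ∈ Ioc V (4P) : y1 < k_j m ≤ y2} ⊆ Ioc 0 (4 P / K)` (nat division), total at most
  `R * 100 M B (H/M + 1 + F^2) (4P/(KM) + 1 + F^2)`.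
* error for each `f, χ`: `∑_{k} B * card {m : ...} ≤ K * B * 2 (4 P H / (K^2 M) + 1) ≤ B (16 P/(R M) + 2 K)` (`bdry` with `k0 = k_j ≥ K`),
  and there are at most `F^2` characters (`ps_one_le`).
-/

set_option autoImplicit false

namespace Pool.Agent.ATL

open Finset Pool.Agent.Helper98.Bern

private theorem dy_piece {H K R k : ℕ} (hH : 1 ≤ H) (hRH : K ≤ R * H) (hk : k ∈ Ioc K (2 * K)) :
    (k - K - 1) / H < R ∧ K + ((k - K - 1) / H) * H < k ∧
      k ≤ K + ((k - K - 1) / H) * H + H := by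
  rw [mem_Ioc] at hk
  have h1 := Nat.div_add_mod (k - K - 1) H
  have h2 := Nat.mod_lt (k - K - 1) (show 0 < H by omega)
  rw [mul_comm] at h1
  refine ⟨?_, ?_, ?_⟩
  · rw [Nat.div_lt_iff_lt_mul (by omega)]
    omega
  · omega
  · omega

private theorem dy_diff {M a P k0 H V y1 y2 k : ℕ} (hM : 1 ≤ M) (ha : a.Coprime M)
    (hk0 : 1 ≤ k0) (hk : k0 < k) (hkH : k ≤ k0 + H) (hy1 : y1 ≤ y2) (hy2 : y2 ≤ 4 * P)
    (g : ℕ → ℂ) {B : ℝ} (hB : 0 ≤ B) (hg : ∀ m, m ≤ 4 * P → ‖g m‖ ≤ B) :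
    ‖∑ m ∈ (Ioc V (4 * P)).filter (fun m => y1 < k * m ∧ k * m ≤ y2 ∧ k * m ≡ a [MOD M]), g m -
      ∑ m ∈ (Ioc V (4 * P)).filter (fun m => (y1 < k0 * m ∧ k0 * m ≤ y2) ∧
        k * m ≡ a [MOD M]), g m‖ ≤ B * (2 * (4 * P * H / ((k0 : ℝ) ^ 2 * M) + 1)) := by
  have h1 := bdry (V := V) hM ha hk0 hk hkH hy1 hy2
  rw [Finset.sum_filter, Finset.sum_filter, ← Finset.sum_sub_distrib]
  calc ‖∑ m ∈ Ioc V (4 * P), ((if y1 < k * m ∧ k * m ≤ y2 ∧ k * m ≡ a [MOD M] then g m else 0) -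
        (if (y1 < k0 * m ∧ k0 * m ≤ y2) ∧ k * m ≡ a [MOD M] then g m else 0))‖
      ≤ ∑ m ∈ Ioc V (4 * P), (if k * m ≡ a [MOD M] ∧
        ¬ ((y1 < k * m ∧ k * m ≤ y2) ↔ (y1 < k0 * m ∧ k0 * m ≤ y2)) then B else 0) := by
        refine (norm_sum_le _ _).trans (Finset.sum_le_sum fun m hm => ?_)
        have h2 := hg m (mem_Ioc.1 hm).2
        by_cases c1 : k * m ≡ a [MOD M]
        · by_cases c2 : y1 < k * m ∧ k * m ≤ y2
          · by_cases c3 : y1 < k0 * m ∧ k0 * m ≤ y2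
            · rw [if_pos ⟨c2.1, c2.2, c1⟩, if_pos ⟨c3, c1⟩, sub_self, norm_zero]
              split_ifs <;> simp [hB]
            · rw [if_pos ⟨c2.1, c2.2, c1⟩, if_neg (fun h => c3 h.1), sub_zero,
                if_pos ⟨c1, fun h => c3 (h.1 c2)⟩]
              exact h2
          · by_cases c3 : y1 < k0 * m ∧ k0 * m ≤ y2
            · rw [if_neg (fun h => c2 ⟨h.1, h.2.1⟩), if_pos ⟨c3, c1⟩, zero_sub, norm_neg,
                if_pos ⟨c1, fun h => c2 (h.2 c3)⟩]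
              exact h2
            · rw [if_neg (fun h => c2 ⟨h.1, h.2.1⟩), if_neg (fun h => c3 h.1), sub_zero, norm_zero]
              split_ifs <;> simp [hB]
        · rw [if_neg (fun h => c1 h.2.2), if_neg (fun h => c1 h.2), sub_zero, norm_zero]
          split_ifs <;> simp [hB]
    _ = B * (((Ioc V (4 * P)).filter (fun m => k * m ≡ a [MOD M] ∧
      ¬ ((y1 < k * m ∧ k * m ≤ y2) ↔ (y1 < k0 * m ∧ k0 * m ≤ y2)))).card : ℝ) := by
        rw [← Finset.sum_filter, Finset.sum_const, nsmul_eq_mul, mul_comm]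
    _ ≤ _ := mul_le_mul_of_nonneg_left h1 hB

private theorem dy_block {M F a P V y1 y2 K H k0 : ℕ} (hM : 1 ≤ M) (hF : 1 ≤ F)
    (ha : a.Coprime M) (hK : 1 ≤ K) (hk0 : K ≤ k0) (hy2 : y2 ≤ 4 * P)
    (α β : ℕ → ℂ) {B : ℝ} (hB : 0 ≤ B) (hα : ∀ k, ‖α k‖ ≤ 1)
    (hβ : ∀ m, m ≤ 4 * P → ‖β m‖ ≤ B) (S : Finset ℕ) (hS : S ⊆ Ioc k0 (k0 + H)) :
    ps M F (fun _ χ => ‖∑ k ∈ S, ∑ m ∈ (Ioc V (4 * P)).filter
      (fun m => (y1 < k0 * m ∧ k0 * m ≤ y2) ∧ k * m ≡ a [MOD M]),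
        α k * β m * χ ((k * m : ℕ))‖) ≤
      100 * M * B * ((H : ℝ) / M + 1 + (F : ℝ) ^ 2) *
        ((4 * P) / ((K : ℝ) * M) + 1 + (F : ℝ) ^ 2) := by
  have hM0 : (0 : ℝ) < M := by exact_mod_cast hM
  have hK0 : (0 : ℝ) < K := by exact_mod_cast hK
  have h1 := block (m1 := 0) (W := 4 * P / K) hM hF ha α β hB S
    ((Ioc V (4 * P)).filter (fun m => y1 < k0 * m ∧ k0 * m ≤ y2)) hS ?_ (fun k _ => hα k) ?_
  · simp only [Finset.filter_filter] at h1
    refine h1.trans ?_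
    apply mul_le_mul_of_nonneg_left _ (by positivity)
    have h2 : (((4 * P / K : ℕ) : ℝ)) / M ≤ (4 * P) / ((K : ℝ) * M) := by
      rw [← div_div]
      apply div_le_div_of_nonneg_right _ hM0.le
      have := Nat.cast_div_le (α := ℝ) (m := 4 * P) (n := K)
      push_cast at this
      exact this
    linarith
  · intro m hm
    rw [mem_filter, mem_Ioc] at hm
    rw [mem_Ioc, zero_add]
    refine ⟨by omega, ?_⟩
    rw [Nat.le_div_iff_mul_le (by omega)]
    have h3 : m * K ≤ k0 * m := by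
      rw [mul_comm]
      exact Nat.mul_le_mul_right m hk0
    omega
  · intro m hm
    rw [mem_filter, mem_Ioc] at hm
    exact hβ m hm.1.2

theorem dyad {M F a P V y1 y2 K R : ℕ} (hM : 1 ≤ M) (hF : 1 ≤ F) (ha : a.Coprime M)
    (hR : 1 ≤ R) (hRK : R ≤ K) (hy1 : y1 ≤ y2) (hy2 : y2 ≤ 4 * P) (α β : ℕ → ℂ) {B : ℝ}
    (hB : 0 ≤ B) (hα : ∀ k, ‖α k‖ ≤ 1) (hβ : ∀ m, m ≤ 4 * P → ‖β m‖ ≤ B) :
    ps M F (fun _ χ => ‖∑ k ∈ Ioc K (2 * K), ∑ m ∈ (Ioc V (4 * P)).filter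
      (fun m => y1 < k * m ∧ k * m ≤ y2 ∧ k * m ≡ a [MOD M]), α k * β m * χ ((k * m : ℕ))‖) ≤
      100 * M * B * R * (2 * K / ((R : ℝ) * M) + 1 + (F : ℝ) ^ 2) *
        (4 * P / ((K : ℝ) * M) + 1 + (F : ℝ) ^ 2) +
      (F : ℝ) ^ 2 * B * (16 * P / ((R : ℝ) * M) + 2 * K) := by
  have hK1 : 1 ≤ K := hR.trans hRK
  have hM0 : (0 : ℝ) < M := by exact_mod_cast hM
  have hK0 : (0 : ℝ) < K := by exact_mod_cast hK1
  have hR0 : (0 : ℝ) < R := by exact_mod_cast hR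
  set H := K / R + 1 with hH
  have hH1 : 1 ≤ H := Nat.le_add_left _ _
  have hRH : K ≤ R * H := by
    have h1 := Nat.div_add_mod K R
    have h2 := Nat.mod_lt K (show 0 < R by omega)
    rw [hH, Nat.mul_add]
    omega
  have hH2 : (H : ℝ) ≤ 2 * K / R := by
    have h1 := Nat.cast_div_le (α := ℝ) (m := K) (n := R)
    have h2 : (1 : ℝ) ≤ K / R := by
      rw [le_div_iff₀ hR0, one_mul]
      exact_mod_cast hRK
    rw [hH]
    push_cast
    have h3 : 2 * (K : ℝ) / R = K / R + K / R := by ring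
    rw [h3]
    linarith
  set jj : ℕ → ℕ := fun k => (k - K - 1) / H with hjj
  have hpc : ∀ k ∈ Ioc K (2 * K), jj k < R ∧ K + jj k * H < k ∧ k ≤ K + jj k * H + H :=
    fun k hk => dy_piece hH1 hRH hk
  set E : ℝ := B * (16 * P / ((R : ℝ) * M) + 2 * K) with hE
  -- the pointwise inequality
  have key : ∀ f ∈ mods M F, ∀ χ ∈ prim f,
      ‖∑ k ∈ Ioc K (2 * K), ∑ m ∈ (Ioc V (4 * P)).filter
      (fun m => y1 < k * m ∧ k * m ≤ y2 ∧ k * m ≡ a [MOD M]), α k * β m * χ ((k * m : ℕ))‖ ≤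
      (∑ j ∈ range R, ‖∑ k ∈ (Ioc K (2 * K)).filter (fun k => jj k = j),
        ∑ m ∈ (Ioc V (4 * P)).filter (fun m => (y1 < (K + j * H) * m ∧ (K + j * H) * m ≤ y2) ∧
          k * m ≡ a [MOD M]), α k * β m * χ ((k * m : ℕ))‖) + E * 1 := by
    intro f _ χ _
    have hg : ∀ k m : ℕ, m ≤ 4 * P → ‖α k * β m * χ ((k * m : ℕ))‖ ≤ B := by
      intro k m hm
      rw [norm_mul, norm_mul]
      have h1 := hα k
      have h2 := hβ m hm
      have h3 := DirichletCharacter.norm_le_one χ ((k * m : ℕ) : ZMod f)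
      calc ‖α k‖ * ‖β m‖ * ‖χ ((k * m : ℕ))‖ ≤ 1 * B * 1 := by
            apply mul_le_mul _ h3 (norm_nonneg _) (by positivity)
            exact mul_le_mul h1 h2 (norm_nonneg _) zero_le_one
        _ = B := by ring
    set X : ℕ → ℂ := fun k => ∑ m ∈ (Ioc V (4 * P)).filter
      (fun m => y1 < k * m ∧ k * m ≤ y2 ∧ k * m ≡ a [MOD M]), α k * β m * χ ((k * m : ℕ)) with hX
    set Y : ℕ → ℕ → ℂ := fun j k => ∑ m ∈ (Ioc V (4 * P)).filter
      (fun m => (y1 < (K + j * H) * m ∧ (K + j * H) * m ≤ y2) ∧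
          k * m ≡ a [MOD M]), α k * β m * χ ((k * m : ℕ)) with hY
    show ‖∑ k ∈ Ioc K (2 * K), X k‖ ≤ (∑ j ∈ range R,
      ‖∑ k ∈ (Ioc K (2 * K)).filter (fun k => jj k = j), Y j k‖) + E * 1
    have h1 : ∑ k ∈ Ioc K (2 * K), X k = ∑ j ∈ range R,
        (∑ k ∈ (Ioc K (2 * K)).filter (fun k => jj k = j), Y j k) +
        ∑ k ∈ Ioc K (2 * K), (X k - Y (jj k) k) := by
      have h2 : ∑ j ∈ range R, (∑ k ∈ (Ioc K (2 * K)).filter (fun k => jj k = j), Y j k) =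
          ∑ k ∈ Ioc K (2 * K), Y (jj k) k := by
        rw [← Finset.sum_fiberwise_of_maps_to (s := Ioc K (2 * K)) (t := range R) (g := jj)
          (fun k hk => mem_range.2 (hpc k hk).1)]
        refine Finset.sum_congr rfl fun j _ => Finset.sum_congr rfl fun k hk => ?_
        rw [(mem_filter.1 hk).2]
      rw [h2, ← Finset.sum_add_distrib]
      refine Finset.sum_congr rfl fun k _ => ?_
      ring
    rw [h1]
    refine (norm_add_le _ _).trans (add_le_add (norm_sum_le _ _) ?_)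
    refine (norm_sum_le _ _).trans ?_
    have h3 : ∀ k ∈ Ioc K (2 * K), ‖X k - Y (jj k) k‖ ≤
        B * (2 * (4 * P * H / ((K : ℝ) ^ 2 * M) + 1)) := by
      intro k hk
      obtain ⟨_, h5, h6⟩ := hpc k hk
      have h7 := dy_diff (V := V) (k0 := K + jj k * H) hM ha (by omega) h5 h6 hy1 hy2
        (fun m => α k * β m * χ ((k * m : ℕ))) hB (hg k)
      refine h7.trans ?_
      apply mul_le_mul_of_nonneg_left _ hB
      apply mul_le_mul_of_nonneg_left _ (by norm_num)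
      have h8 : (K : ℝ) ^ 2 * M ≤ ((K + jj k * H : ℕ) : ℝ) ^ 2 * M := by
        apply mul_le_mul_of_nonneg_right _ hM0.le
        apply pow_le_pow_left₀ hK0.le
        exact_mod_cast Nat.le_add_right _ _
      have h9 : 4 * (P : ℝ) * H / (((K + jj k * H : ℕ) : ℝ) ^ 2 * M) ≤
          4 * P * H / ((K : ℝ) ^ 2 * M) :=
        div_le_div_of_nonneg_left (by positivity) (by positivity) h8
      linarith
    refine (Finset.sum_le_sum h3).trans ?_
    rw [Finset.sum_const, nsmul_eq_mul, Nat.card_Ioc, mul_one, hE]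
    have h4 : ((2 * K - K : ℕ) : ℝ) = K := by
      have : 2 * K - K = K := by omega
      rw [this]
    rw [h4]
    have h5 : (K : ℝ) * (B * (2 * (4 * P * H / ((K : ℝ) ^ 2 * M) + 1))) =
        B * (8 * P * H / (K * M) + 2 * K) := by
      field_simp
      ring
    rw [h5]
    apply mul_le_mul_of_nonneg_left _ hB
    have h6 : 8 * (P : ℝ) * H / (K * M) ≤ 16 * P / (R * M) := by
      calc 8 * (P : ℝ) * H / (K * M) ≤ 8 * P * (2 * K / R) / (K * M) := by
            apply div_le_div_of_nonneg_right _ (by positivity)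
            exact mul_le_mul_of_nonneg_left hH2 (by positivity)
        _ = 16 * P / (R * M) := by
            field_simp
            ring
    linarith
  refine (ps_mono key).trans ?_
  rw [ps_add, ps_sum, ps_mul]
  have hE0 : 0 ≤ E := by positivity
  apply add_le_add
  · have h1 : ∀ j ∈ range R, ps M F (fun f χ =>
        ‖∑ k ∈ (Ioc K (2 * K)).filter (fun k => jj k = j),
        ∑ m ∈ (Ioc V (4 * P)).filter (fun m => (y1 < (K + j * H) * m ∧ (K + j * H) * m ≤ y2) ∧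
          k * m ≡ a [MOD M]), α k * β m * χ ((k * m : ℕ))‖) ≤
        100 * M * B * (2 * K / ((R : ℝ) * M) + 1 + (F : ℝ) ^ 2) *
        (4 * P / ((K : ℝ) * M) + 1 + (F : ℝ) ^ 2) := by
      intro j _
      refine (dy_block (H := H) hM hF ha hK1 (Nat.le_add_right _ _) hy2 α β hB hα hβ _ ?_).trans ?_
      · intro k hk
        obtain ⟨h2, h3⟩ := mem_filter.1 hk
        obtain ⟨_, h5, h6⟩ := hpc k h2
        rw [h3] at h5 h6
        exact mem_Ioc.2 ⟨h5, h6⟩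
      · apply mul_le_mul_of_nonneg_right _ (by positivity)
        apply mul_le_mul_of_nonneg_left _ (by positivity)
        have h2 : (H : ℝ) / M ≤ 2 * K / (R * M) := by
          rw [← div_div]
          exact div_le_div_of_nonneg_right hH2 hM0.le
        linarith
    refine (Finset.sum_le_sum h1).trans ?_
    rw [Finset.sum_const, nsmul_eq_mul, card_range]
    apply le_of_eq
    ring
  · calc E * ps M F (fun _ _ => 1) ≤ E * (F : ℝ) ^ 2 :=
          mul_le_mul_of_nonneg_left (ps_one_le M F) hE0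
      _ = (F : ℝ) ^ 2 * B * (16 * P / ((R : ℝ) * M) + 2 * K) := by
          rw [hE]
          ring

end Pool.Agent.ATL
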