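import Pool.Agent.ATL.Defs

/-!
# ATL-Farey: separation of Farey fractions multiplied by `M`

`X = M b f' - M b' f - k f f'` is an integer. If `X = 0`: `f ∣ M b f'`, so `f ∣ f'` (`f` is prime to `M` and `b`); in the same way `f' ∣ f`,
so `f = f'` and `M (b - b') = k f`, `f ∣ b - b'`, `b = b'`: excluded. So `|X| ≥ 1` and the left side is `|X| / (f f') ≥ 1 / F^2`.
-/

set_option autoImplicit false

namespace Pool.Agent.ATL

open Finset Pool.Agent.Helper98.Bern

theorem farey_sep {M F f f' b b' : ℕ} (hf : 1 ≤ f) (hfF : f ≤ F) (hf' : 1 ≤ f') (hfF' : f' ≤ F)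
    (hc : f.Coprime M) (hc' : f'.Coprime M) (hb : b < f) (hb' : b' < f') (hbc : b.Coprime f)
    (hbc' : b'.Coprime f') (hne : ¬ (f = f' ∧ b = b')) (k : ℤ) :
    1 / (F : ℝ) ^ 2 ≤ |(M : ℝ) * ((b : ℝ) / f) - (M : ℝ) * ((b' : ℝ) / f') - k| := by
  set X : ℤ := M * b * f' - M * b' * f - k * f * f' with hX
  have hX0 : X ≠ 0 := by
    intro h0
    have h1 : (M : ℤ) * b * f' = f * (M * b' + k * f') := by
      rw [hX] at h0
      linarith
    have h2 : (M : ℤ) * b' * f = f' * (M * b - k * f) := by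
      rw [hX] at h0
      linarith
    have h3 : (f : ℤ) ∣ (M : ℤ) * b * f' := ⟨_, h1⟩
    have h4 : (f' : ℤ) ∣ (M : ℤ) * b' * f := ⟨_, h2⟩
    have h3' : f ∣ M * b * f' := by exact_mod_cast h3
    have h4' : f' ∣ M * b' * f := by exact_mod_cast h4
    have h5 : f ∣ f' := (Nat.Coprime.mul_right hc hbc.symm).dvd_of_dvd_mul_left h3'
    have h6 : f' ∣ f := (Nat.Coprime.mul_right hc' hbc'.symm).dvd_of_dvd_mul_left h4'
    have h7 : f = f' := Nat.dvd_antisymm h5 h6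
    subst h7
    have hf0 : (f : ℤ) ≠ 0 := by
      have : f ≠ 0 := by omega
      exact_mod_cast this
    have h8 : (M : ℤ) * ((b : ℤ) - b') = f * k := by
      have h9 : (f : ℤ) * (M * ((b : ℤ) - b')) = f * (f * k) := by
        rw [hX] at h0
        linarith
      exact mul_left_cancel₀ hf0 h9
    have h9 : (f : ℤ) ∣ (M : ℤ) * ((b : ℤ) - b') := ⟨k, h8⟩
    have h10 : (f : ℤ) ∣ (b : ℤ) - b' :=
      (Nat.isCoprime_iff_coprime.mpr hc).dvd_of_dvd_mul_left h9
    have h11 : (b : ℤ) - b' = 0 := by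
      apply Int.eq_zero_of_abs_lt_dvd h10
      rw [abs_lt]
      constructor <;> omega
    exact hne ⟨rfl, by omega⟩
  have hfR : (0 : ℝ) < f := by exact_mod_cast hf
  have hfR' : (0 : ℝ) < f' := by exact_mod_cast hf'
  have hFR : (0 : ℝ) < F := by
    have : 1 ≤ F := hf.trans hfF
    exact_mod_cast this
  have h1 : (M : ℝ) * ((b : ℝ) / f) - (M : ℝ) * ((b' : ℝ) / f') - k = (X : ℝ) / (f * f') := by
    rw [hX]
    push_cast
    field_simp
  rw [h1, abs_div, abs_of_pos (mul_pos hfR hfR')]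
  have h2 : (1 : ℝ) ≤ |(X : ℝ)| := by
    have h3 : (1 : ℤ) ≤ |X| := Int.one_le_abs hX0
    exact_mod_cast h3
  have h3 : (f : ℝ) * f' ≤ F ^ 2 := by
    have h4 : (f : ℝ) ≤ F := by exact_mod_cast hfF
    have h5 : (f' : ℝ) ≤ F := by exact_mod_cast hfF'
    rw [sq]
    exact mul_le_mul h4 h5 hfR'.le hFR.le
  calc 1 / (F : ℝ) ^ 2 ≤ 1 / (f * f') := one_div_le_one_div_of_le (mul_pos hfR hfR') h3
    _ ≤ |(X : ℝ)| / (f * f') := div_le_div_of_nonneg_right h2 (mul_pos hfR hfR').le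

end Pool.Agent.ATL
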