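import Pool.Agent.ATL.Defs

/-!
# ATL-Gauss: primitive characters and additive characters

Let `e = ZMod.stdAddChar` (`ZMod.stdAddChar_coe`: `e (n * b) = ee (n b / f)`), `S b = ∑ n ∈ S, u n * ee (n b / f)`.
(1) For `χ` primitive `gaussSum_mulShift_of_isPrimitive` (applied to `χ⁻¹`, also primitive): `χ n * τ = ∑ b : ZMod f, χ⁻¹ b * e (n b)`,
    `τ = gaussSum χ⁻¹ e`, for every `n` (also when `(n, f) > 1`). So `τ * cs S u χ = ∑ b, χ⁻¹ b * S b`.
(2) `‖τ‖ ^ 2 = f`: `∑ n : ZMod f, ‖χ n τ‖^2 = φ(f) ‖τ‖^2`, and it equals `∑ n ‖∑ b χ⁻¹ b e (n b)‖^2 = f ∑ b ‖χ⁻¹ b‖^2 = f φ(f)`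
    (orthogonality of the additive characters, `AddChar.sum_mulShift` or `ZMod.dft` Parseval).
(3) Sum over ALL characters mod `f` (drop primitivity, terms nonnegative): `∑ χ ‖∑ b χ⁻¹ b S b‖^2 = φ(f) ∑ b unit ‖S b‖^2`
    (`DirichletCharacter.sum_char_inv_mul_char_eq`).
Hence `f ∑_{χ primitive} ‖cs S u χ‖^2 ≤ φ(f) ∑ b unit ‖S b‖^2` and `φ(f) ≤ f`.
-/

set_option autoImplicit false

namespace Pool.Agent.ATL

open Finset Pool.Agent.Helper98.Bern

private theorem gau_parseval {f : ℕ} [NeZero f] (a : ZMod f → ℂ) :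
    ∑ n : ZMod f, ‖∑ b, a b * ZMod.stdAddChar (n * b)‖ ^ 2 = f * ∑ b, ‖a b‖ ^ 2 := by
  have key : ∑ n : ZMod f, (∑ b, a b * ZMod.stdAddChar (n * b)) *
      (starRingEnd ℂ) (∑ b, a b * ZMod.stdAddChar (n * b)) =
      f * ∑ b, a b * (starRingEnd ℂ) (a b) := by
    simp only [map_sum, Finset.sum_mul_sum, map_mul]
    rw [Finset.sum_comm, Finset.mul_sum]
    refine Finset.sum_congr rfl fun b _ => ?_
    rw [Finset.sum_comm]
    have h1 : ∀ c : ZMod f, ∑ n : ZMod f, a b * ZMod.stdAddChar (n * b) *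
        ((starRingEnd ℂ) (a c) * (starRingEnd ℂ) (ZMod.stdAddChar (n * c))) =
        if b = c then f * (a b * (starRingEnd ℂ) (a b)) else 0 := by
      intro c
      have h2 : ∀ n : ZMod f, a b * ZMod.stdAddChar (n * b) *
          ((starRingEnd ℂ) (a c) * (starRingEnd ℂ) (ZMod.stdAddChar (n * c))) =
          a b * (starRingEnd ℂ) (a c) * ZMod.stdAddChar (n * (b - c)) := by
        intro n
        rw [← AddChar.map_neg_eq_conj, mul_sub, sub_eq_add_neg, AddChar.map_add_eq_mul]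
        ring
      rw [Finset.sum_congr rfl fun n _ => h2 n, ← Finset.mul_sum,
        AddChar.sum_mulShift _ (ZMod.isPrimitive_stdAddChar f)]
      by_cases h : b = c
      · subst h
        simp only [sub_self, if_true, ZMod.card, Nat.cast_id]
        ring
      · rw [if_neg h, if_neg (sub_ne_zero.2 h)]
        simp
    rw [Finset.sum_congr rfl fun c _ => h1 c, Finset.sum_ite_eq, if_pos (Finset.mem_univ _)]
  simp only [Complex.mul_conj'] at key
  exact_mod_cast key

private theorem gau_chars {f : ℕ} [NeZero f] (a : ZMod f → ℂ) :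
    ∑ χ : DirichletCharacter ℂ f, ‖∑ b, χ⁻¹ b * a b‖ ^ 2 =
      f.totient * ∑ b ∈ Finset.univ.filter (fun b : ZMod f => IsUnit b), ‖a b‖ ^ 2 := by
  classical
  have key : ∑ χ : DirichletCharacter ℂ f, (∑ b, χ⁻¹ b * a b) *
      (starRingEnd ℂ) (∑ b, χ⁻¹ b * a b) =
      f.totient * ∑ b ∈ Finset.univ.filter (fun b : ZMod f => IsUnit b),
        a b * (starRingEnd ℂ) (a b) := by
    simp only [map_sum, Finset.sum_mul_sum, map_mul]
    rw [Finset.sum_comm, Finset.mul_sum, Finset.sum_filter]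
    refine Finset.sum_congr rfl fun b _ => ?_
    rw [Finset.sum_comm]
    by_cases hb : IsUnit b
    · rw [if_pos hb]
      have h1 : ∀ c : ZMod f, ∑ χ : DirichletCharacter ℂ f, χ⁻¹ b * a b *
          ((starRingEnd ℂ) (χ⁻¹ c) * (starRingEnd ℂ) (a c)) =
          if b = c then f.totient * (a b * (starRingEnd ℂ) (a b)) else 0 := by
        intro c
        have h2 : ∀ χ : DirichletCharacter ℂ f, χ⁻¹ b * a b *
            ((starRingEnd ℂ) (χ⁻¹ c) * (starRingEnd ℂ) (a c)) =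
            a b * (starRingEnd ℂ) (a c) * (χ b⁻¹ * χ c) := by
          intro χ
          have h3 : (starRingEnd ℂ) (χ⁻¹ c) = χ c := by
            have := MulChar.star_apply' χ⁻¹ c
            rw [inv_inv] at this
            exact this
          have h4 : χ⁻¹ b = χ b⁻¹ := by
            obtain ⟨v, rfl⟩ := hb
            rw [MulChar.inv_apply, Ring.inverse_unit, ZMod.inv_coe_unit]
          rw [h3, h4]
          ring
        rw [Finset.sum_congr rfl fun χ _ => h2 χ, ← Finset.mul_sum,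
          DirichletCharacter.sum_char_inv_mul_char_eq ℂ hb]
        by_cases h : b = c
        · subst h
          simp only [if_true]
          ring
        · rw [if_neg h, if_neg h, mul_zero]
      rw [Finset.sum_congr rfl fun c _ => h1 c, Finset.sum_ite_eq, if_pos (Finset.mem_univ _)]
    · rw [if_neg hb]
      refine Finset.sum_eq_zero fun c _ => Finset.sum_eq_zero fun χ _ => ?_
      rw [MulChar.map_nonunit _ hb]
      ring
  simp only [Complex.mul_conj'] at key
  exact_mod_cast key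

private theorem gau_shift {f : ℕ} [NeZero f] {χ : DirichletCharacter ℂ f} (hχ : χ.IsPrimitive)
    (n : ZMod f) : χ n * gaussSum χ⁻¹ ZMod.stdAddChar =
      ∑ b, χ⁻¹ b * ZMod.stdAddChar (n * b) := by
  have h1 : (χ⁻¹).IsPrimitive := by
    unfold DirichletCharacter.IsPrimitive at hχ ⊢
    rw [DirichletCharacter.conductor_inv]
    exact hχ
  have h2 := gaussSum_mulShift_of_isPrimitive ZMod.stdAddChar h1 n
  rw [inv_inv] at h2
  rw [← h2]
  rfl

private theorem gau_norm {f : ℕ} [NeZero f] {χ : DirichletCharacter ℂ f} (hχ : χ.IsPrimitive) :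
    ‖gaussSum χ⁻¹ (ZMod.stdAddChar (N := f))‖ ^ 2 = f := by
  have h1 := gau_parseval (fun b : ZMod f => χ⁻¹ b)
  simp only [← gau_shift hχ, norm_mul, mul_pow] at h1
  rw [← Finset.sum_mul] at h1
  have h2 : ∀ n : ZMod f, ‖χ⁻¹ n‖ = ‖χ n‖ := by
    intro n
    rw [← MulChar.star_apply', norm_star]
  simp only [h2] at h1
  have h3 : 0 < ∑ n : ZMod f, ‖χ n‖ ^ 2 := by
    refine Finset.sum_pos' (fun _ _ => by positivity) ⟨1, Finset.mem_univ _, ?_⟩
    rw [map_one]
    norm_num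
  rw [mul_comm] at h1
  exact mul_right_cancel₀ h3.ne' h1

theorem prim_le {f : ℕ} (hf : f ≠ 0) (S : Finset ℕ) (u : ℕ → ℂ) :
    ∑ χ ∈ prim f, ‖cs S u χ‖ ^ 2 ≤
      ∑ b ∈ (range f).filter (fun b => b.Coprime f),
        ‖∑ n ∈ S, u n * ee ((n : ℝ) * ((b : ℝ) / f))‖ ^ 2 := by
  have hne : NeZero f := ⟨hf⟩
  have hf' : (0 : ℝ) < f := by exact_mod_cast Nat.pos_of_ne_zero hf
  let a : ZMod f → ℂ := fun b => ∑ n ∈ S, u n * ZMod.stdAddChar ((n : ZMod f) * b)
  have h1 : ∀ χ ∈ prim f, f * ‖cs S u χ‖ ^ 2 = ‖∑ b, χ⁻¹ b * a b‖ ^ 2 := by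
    intro χ hχ
    rw [mem_prim hf] at hχ
    rw [← gau_norm hχ, ← mul_pow, ← norm_mul]
    congr 2
    unfold cs
    rw [Finset.mul_sum]
    simp only [a, Finset.mul_sum]
    rw [Finset.sum_comm]
    refine Finset.sum_congr rfl fun n _ => ?_
    rw [mul_left_comm, mul_comm (gaussSum _ _), gau_shift hχ, Finset.mul_sum]
    exact Finset.sum_congr rfl fun b _ => by ring
  have h2 : f * ∑ χ ∈ prim f, ‖cs S u χ‖ ^ 2 ≤
      f.totient * ∑ b ∈ Finset.univ.filter (fun b : ZMod f => IsUnit b), ‖a b‖ ^ 2 := by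
    rw [Finset.mul_sum, Finset.sum_congr rfl h1, ← gau_chars a]
    exact Finset.sum_le_sum_of_subset_of_nonneg (Finset.subset_univ _) fun _ _ _ => by positivity
  have h3 : ∑ b ∈ Finset.univ.filter (fun b : ZMod f => IsUnit b), ‖a b‖ ^ 2 =
      ∑ b ∈ (range f).filter (fun b => b.Coprime f),
        ‖∑ n ∈ S, u n * ee ((n : ℝ) * ((b : ℝ) / f))‖ ^ 2 := by
    have h4 : ∀ b : ℕ, a (b : ZMod f) = ∑ n ∈ S, u n * ee ((n : ℝ) * ((b : ℝ) / f)) := by
      intro b
      refine Finset.sum_congr rfl fun n _ => ?_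
      have h5 := ZMod.stdAddChar_coe (N := f) ((n : ℤ) * b)
      push_cast at h5
      rw [h5]
      unfold ee
      congr 2
      push_cast
      ring
    refine Finset.sum_nbij' (fun b => b.val) (fun b => (b : ZMod f)) ?_ ?_ ?_ ?_ ?_
    · intro b hb
      rw [Finset.mem_filter] at hb ⊢
      refine ⟨Finset.mem_range.2 (ZMod.val_lt b), ?_⟩
      rw [← ZMod.isUnit_iff_coprime, ZMod.natCast_zmod_val]
      exact hb.2
    · intro b hb
      rw [Finset.mem_filter] at hb ⊢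
      exact ⟨Finset.mem_univ _, (ZMod.isUnit_iff_coprime _ _).2 hb.2⟩
    · intro b _
      exact ZMod.natCast_zmod_val b
    · intro b hb
      rw [Finset.mem_filter, Finset.mem_range] at hb
      exact ZMod.val_cast_of_lt hb.1
    · intro b _
      rw [← h4, ZMod.natCast_zmod_val]
  rw [h3] at h2
  have h4 : (f.totient : ℝ) ≤ f := by exact_mod_cast Nat.totient_le f
  have h5 : 0 ≤ ∑ b ∈ (range f).filter (fun b => b.Coprime f),
        ‖∑ n ∈ S, u n * ee ((n : ℝ) * ((b : ℝ) / f))‖ ^ 2 :=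
    Finset.sum_nonneg fun _ _ => by positivity
  exact le_of_mul_le_mul_left (h2.trans (mul_le_mul_of_nonneg_right h4 h5)) hf'

end Pool.Agent.ATL
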