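import Pool.Agent.ATL.Gauss
import Pool.Agent.ATL.Dual
import Pool.Agent.ATL.Farey

/-!
# ATL-LSM: the multiplicative large sieve in a residue class

By `prim_le` the left side is at most `∑_{f} ∑_{b} ‖∑_{n ∈ S} u n ee(n b / f)‖^2` (`f ∈ mods M F`, `b < f` prime to `f`). If `S` is empty:
trivial. All `n ∈ S` are `r + M j`, `r = c % M`, with `j = n / M`, `j0 < j ≤ j0 + N'` where `j0` is such that `r + M j0 ≤ N0` is maximal (handle
`N0 < r` with `j0 = -1`: or take integers / shift: `j + 1 - j_min`, `j_min` = the minimum of `n / M` on `S`; then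
`i = j - j_min + 1 ∈ Icc 1 N'`, `N' = N / M + 1`, because `M (j_max - j_min) = n_max - n_min < N`). `n b / f = (r + M (j_min - 1)) b / f + i (M b / f)`: a
unimodular factor independent of `n` times `ee (i (M b / f))`. Apply `dual_ls` to the index set of pairs `(f, b)` (`Finset.sigma` or a filtered product),
`β = M b / f`, `δ = 1 / F^2` (`farey_sep`), the sequence `v i = u (r + M (j_min - 1 + i))` if this is in `S`, else `0`.
-/

set_option autoImplicit false

namespace Pool.Agent.ATL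

open Finset Pool.Agent.Helper98.Bern

/-- Rewriting a sum over a subset of an arithmetic progression. -/
private theorem sum_prog {R : Type} [AddCommMonoid R] {M N0 N c : ℕ} (hM : 1 ≤ M) {S : Finset ℕ}
    (hS : ∀ n ∈ S, N0 < n ∧ n ≤ N0 + N ∧ n ≡ c [MOD M]) {nm : ℕ} (hnm : nm ∈ S)
    (hmin : ∀ n ∈ S, nm ≤ n) (G : ℕ → R) :
    ∑ n ∈ S, G n = ∑ i ∈ Icc 1 (N / M + 1), if nm + M * (i - 1) ∈ S then G (nm + M * (i - 1)) else 0 := by
  classical
  rw [← Finset.sum_filter]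
  symm
  refine Finset.sum_nbij' (fun i => nm + M * (i - 1)) (fun n => (n - nm) / M + 1) ?_ ?_ ?_ ?_ ?_
  · intro i hi
    exact (Finset.mem_filter.1 hi).2
  · intro n hn
    have h1 := hmin n hn
    have h2 := hS n hn
    have h3 := hS nm hnm
    have h4 : nm ≡ n [MOD M] := h3.2.2.trans h2.2.2.symm
    have h5 : M ∣ n - nm := (Nat.modEq_iff_dvd' h1).1 h4
    have h6 : nm + M * ((n - nm) / M + 1 - 1) = n := by
      rw [Nat.add_sub_cancel, Nat.mul_div_cancel' h5]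
      omega
    rw [Finset.mem_filter, Finset.mem_Icc]
    refine ⟨⟨Nat.le_add_left _ _, ?_⟩, ?_⟩
    · have h7 : (n - nm) / M ≤ N / M := Nat.div_le_div_right (by omega)
      omega
    · rw [h6]
      exact hn
  · intro i hi
    have h1 := (Finset.mem_Icc.1 (Finset.mem_filter.1 hi).1).1
    show (nm + M * (i - 1) - nm) / M + 1 = i
    rw [Nat.add_sub_cancel_left, Nat.mul_div_cancel_left _ (by omega)]
    omega
  · intro n hn
    have h1 := hmin n hn
    have h2 := hS n hn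
    have h3 := hS nm hnm
    have h4 : nm ≡ n [MOD M] := h3.2.2.trans h2.2.2.symm
    have h5 : M ∣ n - nm := (Nat.modEq_iff_dvd' h1).1 h4
    show nm + M * ((n - nm) / M + 1 - 1) = n
    rw [Nat.add_sub_cancel, Nat.mul_div_cancel' h5]
    omega
  · intro i _
    rfl

theorem ls_prog {M F c N0 N : ℕ} (hM : 1 ≤ M) (hF : 1 ≤ F) (u : ℕ → ℂ) (S : Finset ℕ)
    (hS : ∀ n ∈ S, N0 < n ∧ n ≤ N0 + N ∧ n ≡ c [MOD M]) :
    ps M F (fun _ χ => ‖cs S u χ‖ ^ 2) ≤
      100 * ((N : ℝ) / M + 1 + (F : ℝ) ^ 2) * ∑ n ∈ S, ‖u n‖ ^ 2 := by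
  classical
  rcases Finset.eq_empty_or_nonempty S with rfl | hne
  · have h0 : ps M F (fun _ χ => ‖cs ∅ u χ‖ ^ 2) = 0 := by
      unfold ps cs
      refine Finset.sum_eq_zero fun f _ => Finset.sum_eq_zero fun χ _ => ?_
      show ‖∑ n ∈ ∅, u n * χ n‖ ^ 2 = 0
      rw [Finset.sum_empty, norm_zero]
      norm_num
    rw [h0, Finset.sum_empty, mul_zero]
  let nm := S.min' hne
  have hnm : nm ∈ S := S.min'_mem hne
  have hmin : ∀ n ∈ S, nm ≤ n := fun n hn => S.min'_le n hn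
  let N' := N / M + 1
  let v : ℕ → ℂ := fun i => if nm + M * (i - 1) ∈ S then u (nm + M * (i - 1)) else 0
  have hv : ∑ n ∈ S, ‖u n‖ ^ 2 = ∑ i ∈ Icc 1 N', ‖v i‖ ^ 2 := by
    rw [sum_prog hM hS hnm hmin]
    refine Finset.sum_congr rfl fun i _ => ?_
    show (if nm + M * (i - 1) ∈ S then ‖u (nm + M * (i - 1))‖ ^ 2 else 0) =
      ‖(if nm + M * (i - 1) ∈ S then u (nm + M * (i - 1)) else 0)‖ ^ 2
    split_ifs
    · rfl
    · rw [norm_zero]
      norm_num
  have hexp : ∀ b f : ℕ, ‖∑ n ∈ S, u n * ee ((n : ℝ) * ((b : ℝ) / f))‖ =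
      ‖∑ i ∈ Icc 1 N', v i * ee ((i : ℝ) * ((M : ℝ) * ((b : ℝ) / f)))‖ := by
    intro b f
    rw [sum_prog hM hS hnm hmin]
    have h1 : ∑ i ∈ Icc 1 (N / M + 1), (if nm + M * (i - 1) ∈ S then
        u (nm + M * (i - 1)) * ee (((nm + M * (i - 1) : ℕ) : ℝ) * ((b : ℝ) / f)) else 0) =
        ee (((nm : ℝ) - M) * ((b : ℝ) / f)) *
          ∑ i ∈ Icc 1 N', v i * ee ((i : ℝ) * ((M : ℝ) * ((b : ℝ) / f))) := by
      rw [Finset.mul_sum]
      refine Finset.sum_congr rfl fun i hi => ?_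
      have hi1 := (Finset.mem_Icc.1 hi).1
      show _ = _ * ((if nm + M * (i - 1) ∈ S then u (nm + M * (i - 1)) else 0) * _)
      split_ifs
      · have h2 : ((nm + M * (i - 1) : ℕ) : ℝ) * ((b : ℝ) / f) =
            ((nm : ℝ) - M) * ((b : ℝ) / f) + (i : ℝ) * ((M : ℝ) * ((b : ℝ) / f)) := by
          rw [Nat.cast_add, Nat.cast_mul, Nat.cast_sub hi1, Nat.cast_one]
          ring
        rw [h2, ee_add]
        ring
      · rw [zero_mul, mul_zero]
    rw [h1, norm_mul, norm_ee, one_mul]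
  have hF0 : (0 : ℝ) < F := by exact_mod_cast hF
  let s : Finset (Σ _ : ℕ, ℕ) := (mods M F).sigma fun f => (range f).filter fun b => b.Coprime f
  let β : (Σ _ : ℕ, ℕ) → ℝ := fun x => (M : ℝ) * ((x.2 : ℝ) / x.1)
  have hls := dual_ls s β (1 / (F : ℝ) ^ 2) (by positivity) (by
    rintro ⟨f, b⟩ hx ⟨f', b'⟩ hx' hne' k
    have h1 := Finset.mem_sigma.1 hx
    have h1' := Finset.mem_sigma.1 hx'
    have h2 := mem_mods.1 h1.1
    have h2' := mem_mods.1 h1'.1
    have h3 := Finset.mem_filter.1 h1.2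
    have h3' := Finset.mem_filter.1 h1'.2
    have h4 := Finset.mem_range.1 h3.1
    have h4' := Finset.mem_range.1 h3'.1
    refine farey_sep (f := f) (f' := f') (b := b) (b' := b') ?_ h2.2.1 ?_ h2'.2.1 h2.2.2 h2'.2.2 h4
      h4' h3.2 h3'.2 ?_ k
    · have h21 : 2 ≤ f := h2.1
      omega
    · have h21 : 2 ≤ f' := h2'.1
      omega
    · rintro ⟨h5, h6⟩
      apply hne'
      rw [h5, h6]) N' v
  have hps : ps M F (fun _ χ => ‖cs S u χ‖ ^ 2) ≤
      ∑ x ∈ s, ‖∑ i ∈ Icc 1 N', v i * ee ((i : ℝ) * β x)‖ ^ 2 := by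
    rw [Finset.sum_sigma]
    unfold ps
    refine Finset.sum_le_sum fun f hf => ?_
    have hf0 : f ≠ 0 := by
      have := (mem_mods.1 hf).1
      omega
    refine (prim_le hf0 S u).trans (le_of_eq ?_)
    refine Finset.sum_congr rfl fun b _ => ?_
    rw [hexp]
  refine hps.trans (hls.trans ?_)
  rw [← hv]
  have h0 : (0 : ℝ) ≤ ∑ n ∈ S, ‖u n‖ ^ 2 := Finset.sum_nonneg fun n _ => by positivity
  refine mul_le_mul_of_nonneg_right ?_ h0
  have h1 : (N' : ℝ) ≤ (N : ℝ) / M + 1 := by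
    show ((N / M + 1 : ℕ) : ℝ) ≤ _
    rw [Nat.cast_add, Nat.cast_one]
    have := @Nat.cast_div_le ℝ _ _ _ N M
    linarith
  have h2 : 1 / (1 / (F : ℝ) ^ 2) = (F : ℝ) ^ 2 := one_div_one_div _
  rw [h2]
  linarith

end Pool.Agent.ATL
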