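import Pool.Agent.ATL.Cnt

/-!
# ATL-T1: linear sums

`chi_prog`: `χ` primitive mod `f ≥ 2` is not the trivial character (conductor), so its sum over a complete system of residues is zero. The integers
`m ≡ c [MOD M]` in `Ioc m1 m2` form a progression of step `M`; `f` consecutive terms form a complete system mod `f` (`(f, M) = 1`), so the sum is a
sum of fewer than `f` terms of absolute value at most `1`.
`chi_prog_log`: Abel summation (`log` is increasing): at most `2 f log m2`.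
`type1`: if `(d, M) > 1` the sums vanish; otherwise `{m : y1 < d m ≤ y2, d m ≡ a [MOD M]}` is `{m ∈ Ioc (y1/d) (y2/d), m ≡ c}`, `c = d⁻¹ a`, and
`χ (d m) = χ d χ m`. (`P ≤ y1`, `y2 ≤ 4 P`, so the filter in the sum follows from the conditions in `FF`.)
-/

set_option autoImplicit false

namespace Pool.Agent.ATL

open Finset Pool.Agent.Helper98.Bern

private theorem chi_ne_one {f : ℕ} (hf : 2 ≤ f) {χ : DirichletCharacter ℂ f}
    (hχ : χ.IsPrimitive) : χ ≠ 1 := by
  rintro rfl
  have : NeZero f := ⟨by omega⟩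
  have h1 : (1 : DirichletCharacter ℂ f).conductor = 1 := DirichletCharacter.conductor_one
  have h2 : (1 : DirichletCharacter ℂ f).conductor = f := hχ
  omega

private theorem sum_full {f M : ℕ} (hf : 2 ≤ f) (hc : f.Coprime M)
    {χ : DirichletCharacter ℂ f} (hχ : χ.IsPrimitive) (c0 j : ℕ) :
    ∑ i ∈ range f, χ ((c0 + M * (j + i) : ℕ) : ZMod f) = 0 := by
  have : NeZero f := ⟨by omega⟩
  have hu : IsUnit ((M : ℕ) : ZMod f) := (ZMod.isUnit_iff_coprime M f).2 hc.symm
  have h1 : ∑ i ∈ range f, χ ((c0 + M * (j + i) : ℕ) : ZMod f)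
      = ∑ x : ZMod f, χ (((c0 + M * j : ℕ) : ZMod f) + (M : ZMod f) * x) := by
    refine Finset.sum_bij (fun i _ => ((i : ℕ) : ZMod f)) (fun _ _ => mem_univ _) ?_ ?_ ?_
    · intro i hi i' hi' h
      rw [ZMod.natCast_eq_natCast_iff'] at h
      rwa [Nat.mod_eq_of_lt (mem_range.1 hi), Nat.mod_eq_of_lt (mem_range.1 hi')] at h
    · intro x _
      exact ⟨x.val, mem_range.2 (ZMod.val_lt x), ZMod.natCast_zmod_val x⟩
    · intro i _
      congr 1
      push_cast
      ring
  have h2 : ∑ x : ZMod f, χ (((c0 + M * j : ℕ) : ZMod f) + (M : ZMod f) * x)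
      = ∑ y : ZMod f, χ y := by
    refine Function.Bijective.sum_comp (e := fun x : ZMod f =>
      (((c0 + M * j : ℕ) : ZMod f) + (M : ZMod f) * x)) ?_ (fun y => χ y)
    rw [Fintype.bijective_iff_injective_and_card]
    refine ⟨?_, rfl⟩
    intro x y h
    exact hu.mul_left_cancel (add_left_cancel h)
  rw [h1, h2]
  exact MulChar.sum_eq_zero_of_ne_one (chi_ne_one hf hχ)

private theorem sum_part {f M : ℕ} (hf : 2 ≤ f) (hc : f.Coprime M)
    {χ : DirichletCharacter ℂ f} (hχ : χ.IsPrimitive) (c0 : ℕ) (n : ℕ) :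
    ∀ j : ℕ, ‖∑ i ∈ range n, χ ((c0 + M * (j + i) : ℕ) : ZMod f)‖ ≤ f := by
  induction n using Nat.strong_induction_on with
  | _ n ih =>
    intro j
    rcases lt_or_ge n f with h | h
    · refine (norm_sum_le _ _).trans ?_
      calc ∑ i ∈ range n, ‖χ ((c0 + M * (j + i) : ℕ) : ZMod f)‖
          ≤ ∑ i ∈ range n, (1 : ℝ) :=
            sum_le_sum fun i _ => DirichletCharacter.norm_le_one χ _
        _ = n := by simp
        _ ≤ f := by exact_mod_cast h.le
    · obtain ⟨k, rfl⟩ : ∃ k, n = f + k := ⟨n - f, by omega⟩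
      rw [sum_range_add, sum_full hf hc hχ c0 j, zero_add]
      have h1 := ih k (by omega) (j + f)
      have h2 : ∑ x ∈ range k, χ ((c0 + M * (j + (f + x)) : ℕ) : ZMod f)
          = ∑ i ∈ range k, χ ((c0 + M * (j + f + i) : ℕ) : ZMod f) :=
        sum_congr rfl fun i _ => by rw [add_assoc j f i]
      rw [h2]
      exact h1

private theorem prog_iff {c0 M : ℕ} (hM : 1 ≤ M) (h : c0 < M) (j m : ℕ) :
    c0 + M * j ≤ m ↔ j < (m + M - c0) / M := by
  rw [← Nat.succ_le_iff, Nat.le_div_iff_mul_le (by omega)]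
  have : (j.succ) * M = M * j + M := by
    rw [Nat.succ_eq_add_one]
    ring
  rw [this]
  omega

private theorem prog_sum {M : ℕ} (hM : 1 ≤ M) (c m1 m2 : ℕ) (g : ℕ → ℂ) :
    ∑ m ∈ (Ioc m1 m2).filter (fun m => m ≡ c [MOD M]), g m =
      ∑ i ∈ range ((m2 + M - c % M) / M - (m1 + M - c % M) / M),
        g (c % M + M * ((m1 + M - c % M) / M + i)) := by
  have hc0 : c % M < M := Nat.mod_lt _ (by omega)
  rw [← sum_Ico_eq_sum_range (fun j => g (c % M + M * j))]
  symm
  refine Finset.sum_bij (fun j _ => c % M + M * j) ?_ ?_ ?_ (fun _ _ => rfl)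
  · intro j hj
    rw [mem_Ico] at hj
    rw [mem_filter, mem_Ioc]
    have h1 := prog_iff hM hc0 j m1
    have h2 := prog_iff hM hc0 j m2
    refine ⟨⟨?_, h2.2 hj.2⟩, ?_⟩
    · by_contra h
      have := h1.1 (by omega)
      omega
    · show (c % M + M * j) % M = c % M
      rw [Nat.add_mul_mod_self_left, Nat.mod_mod]
  · intro j _ j' _ h
    have : M * j = M * j' := Nat.add_left_cancel h
    exact Nat.eq_of_mul_eq_mul_left (by omega) this
  · intro m hm
    rw [mem_filter, mem_Ioc] at hm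
    obtain ⟨⟨h3, h4⟩, h5⟩ := hm
    have h6 : m % M = c % M := h5
    have h7 : c % M + M * (m / M) = m := by
      rw [← h6]
      exact Nat.mod_add_div m M
    refine ⟨m / M, ?_, h7⟩
    rw [mem_Ico]
    refine ⟨?_, (prog_iff hM hc0 _ m2).1 (by omega)⟩
    by_contra h
    have := (prog_iff hM hc0 (m / M) m1).2 (by omega)
    omega

theorem chi_prog {f M : ℕ} (hf : 2 ≤ f) (hM : 1 ≤ M) (hc : f.Coprime M)
    {χ : DirichletCharacter ℂ f} (hχ : χ.IsPrimitive) (c m1 m2 : ℕ) :
    ‖∑ m ∈ (Ioc m1 m2).filter (fun m => m ≡ c [MOD M]), χ m‖ ≤ f := by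
  rw [prog_sum hM c m1 m2 (fun m => χ m)]
  exact sum_part hf hc hχ _ _ _

private theorem log_mono {a b : ℕ} (h : a ≤ b) : Real.log (a : ℝ) ≤ Real.log (b : ℝ) := by
  rcases Nat.eq_zero_or_pos a with rfl | ha
  · simp only [Nat.cast_zero, Real.log_zero]
    exact Real.log_natCast_nonneg b
  · exact Real.log_le_log (by exact_mod_cast ha) (by exact_mod_cast h)

private theorem exists_inv {d M : ℕ} (hM : 1 ≤ M)
    (h : d.Coprime M) : ∃ e : ℕ, d * e ≡ 1 [MOD M] := by
  rcases hM.eq_or_lt with h1 | h1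
  · exact ⟨0, by rw [← h1]; exact Nat.modEq_one⟩
  · obtain ⟨e, -, he⟩ := Nat.exists_mul_mod_eq_one_of_coprime h h1
    refine ⟨e, ?_⟩
    show d * e % M = 1 % M
    rw [he, Nat.mod_eq_of_lt h1]

private theorem abel_id (L : ℕ → ℂ) (G : ℕ → ℂ) (n : ℕ) :
    ∑ i ∈ range (n + 1), L i * G i = L n * ∑ i ∈ range (n + 1), G i -
      ∑ k ∈ range n, (L (k + 1) - L k) * ∑ i ∈ range (k + 1), G i := by
  induction n with
  | zero => simp
  | succ n ih =>
    rw [sum_range_succ, ih, sum_range_succ (fun k => (L (k + 1) - L k) * _) n,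
      sum_range_succ G (n + 1)]
    ring

private theorem abel_le {L : ℕ → ℝ} (hL : ∀ i, L i ≤ L (i + 1)) (hL0 : ∀ i, 0 ≤ L i)
    {G : ℕ → ℂ} {B : ℝ} (hB : ∀ k, ‖∑ i ∈ range k, G i‖ ≤ B) (n : ℕ) :
    ‖∑ i ∈ range (n + 1), ((L i : ℝ) : ℂ) * G i‖ ≤ 2 * B * L n := by
  have hB0 : 0 ≤ B := (norm_nonneg _).trans (hB 0)
  rw [abel_id (fun i => ((L i : ℝ) : ℂ)) G n]
  refine (norm_sub_le _ _).trans ?_
  have h1 : ‖((L n : ℝ) : ℂ) * ∑ i ∈ range (n + 1), G i‖ ≤ L n * B := by
    rw [norm_mul, Complex.norm_real, Real.norm_eq_abs, abs_of_nonneg (hL0 n)]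
    exact mul_le_mul_of_nonneg_left (hB _) (hL0 n)
  have h2 : ‖∑ k ∈ range n, (((L (k + 1) : ℝ) : ℂ) - ((L k : ℝ) : ℂ)) *
      ∑ i ∈ range (k + 1), G i‖ ≤ L n * B := by
    refine (norm_sum_le _ _).trans ?_
    calc ∑ k ∈ range n, ‖(((L (k + 1) : ℝ) : ℂ) - ((L k : ℝ) : ℂ)) *
          ∑ i ∈ range (k + 1), G i‖ ≤ ∑ k ∈ range n, (L (k + 1) - L k) * B := by
          refine sum_le_sum fun k _ => ?_
          rw [norm_mul, ← Complex.ofReal_sub, Complex.norm_real, Real.norm_eq_abs,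
            abs_of_nonneg (sub_nonneg.2 (hL k))]
          exact mul_le_mul_of_nonneg_left (hB _) (sub_nonneg.2 (hL k))
      _ = (L n - L 0) * B := by rw [← sum_mul, sum_range_sub]
      _ ≤ L n * B := mul_le_mul_of_nonneg_right (by linarith [hL0 0]) hB0
  have h3 : 2 * B * L n = L n * B + L n * B := by ring
  rw [h3]
  exact add_le_add h1 h2

theorem chi_prog_log {f M : ℕ} (hf : 2 ≤ f) (hM : 1 ≤ M) (hc : f.Coprime M)
    {χ : DirichletCharacter ℂ f} (hχ : χ.IsPrimitive) (c m1 m2 : ℕ) :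
    ‖∑ m ∈ (Ioc m1 m2).filter (fun m => m ≡ c [MOD M]), ((Real.log m : ℝ) : ℂ) * χ m‖ ≤
      2 * f * Real.log m2 := by
  have hc0 : c % M < M := Nat.mod_lt _ (by omega)
  rw [prog_sum hM c m1 m2 (fun m => ((Real.log m : ℝ) : ℂ) * χ m)]
  set j1 := (m1 + M - c % M) / M with hj1
  rcases Nat.eq_zero_or_pos ((m2 + M - c % M) / M - j1) with h | h
  · rw [h]
    simp only [range_zero, sum_empty, norm_zero]
    have := Real.log_natCast_nonneg m2
    positivity
  · obtain ⟨n, hn⟩ : ∃ n, (m2 + M - c % M) / M - j1 = n + 1 := ⟨_, (Nat.succ_pred_eq_of_pos h).symm⟩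
    rw [hn]
    have h1 := abel_le (L := fun i => Real.log ((c % M + M * (j1 + i) : ℕ) : ℝ))
      (fun i => log_mono (by
        have : M * (j1 + i) ≤ M * (j1 + (i + 1)) := Nat.mul_le_mul_left _ (by omega)
        omega)) (fun i => Real.log_natCast_nonneg _)
      (G := fun i => χ ((c % M + M * (j1 + i) : ℕ) : ZMod f)) (B := f)
      (fun k => sum_part hf hc hχ _ k j1) n
    refine h1.trans ?_
    have h2 : c % M + M * (j1 + n) ≤ m2 := (prog_iff hM hc0 _ m2).2 (by omega)
    have h3 := log_mono h2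
    exact mul_le_mul_of_nonneg_left h3 (by positivity)

theorem type1 {f M a P d y1 y2 : ℕ} (hf : 2 ≤ f) (hM : 1 ≤ M) (hc : f.Coprime M)
    {χ : DirichletCharacter ℂ f} (hχ : χ.IsPrimitive) (ha : a.Coprime M) (hd : 1 ≤ d)
    (hP : 1 ≤ P) (hy1 : P ≤ y1) (hy12 : y1 ≤ y2) (hy2 : y2 ≤ 4 * P) :
    ‖∑ m ∈ (Icc 1 (4 * P)).filter (fun m => P < d * m ∧ d * m ≤ 4 * P),
      FF χ M a y1 y2 (d * m)‖ ≤ f ∧
    ‖∑ m ∈ (Icc 1 (4 * P)).filter (fun m => P < d * m ∧ d * m ≤ 4 * P),
      ((Real.log m : ℝ) : ℂ) * FF χ M a y1 y2 (d * m)‖ ≤ 2 * f * Real.log (4 * P) := by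
  have hlogP : 0 ≤ Real.log (4 * (P : ℝ)) := by
    have h1 := Real.log_natCast_nonneg (4 * P)
    push_cast at h1
    exact h1
  by_cases hdM : d.Coprime M
  · -- the class of `m`
    obtain ⟨c, hcl⟩ : ∃ c : ℕ, ∀ m : ℕ, d * m ≡ a [MOD M] ↔ m ≡ c [MOD M] := by
      obtain ⟨e, he⟩ := exists_inv hM hdM
      refine ⟨e * a, fun m => ⟨fun h => ?_, fun h => ?_⟩⟩
      · have h1 : e * (d * m) ≡ e * a [MOD M] := Nat.ModEq.mul_left e h
        have h2 : d * e * m ≡ 1 * m [MOD M] := Nat.ModEq.mul_right m he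
        have h3 : e * (d * m) = d * e * m := by ring
        rw [h3] at h1
        rw [one_mul] at h2
        exact h2.symm.trans h1
      · have h1 : d * m ≡ d * (e * a) [MOD M] := Nat.ModEq.mul_left d h
        have h2 : d * e * a ≡ 1 * a [MOD M] := Nat.ModEq.mul_right a he
        have h3 : d * (e * a) = d * e * a := by ring
        rw [h3] at h1
        rw [one_mul] at h2
        exact h1.trans h2
    have key : ∀ w : ℕ → ℂ, ∑ m ∈ (Icc 1 (4 * P)).filter (fun m => P < d * m ∧ d * m ≤ 4 * P),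
        w m * FF χ M a y1 y2 (d * m) = χ d *
          ∑ m ∈ (Ioc (y1 / d) (y2 / d)).filter (fun m => m ≡ c [MOD M]), w m * χ m := by
      intro w
      rw [mul_sum]
      have h1 : ∑ m ∈ (Icc 1 (4 * P)).filter (fun m => P < d * m ∧ d * m ≤ 4 * P),
          w m * FF χ M a y1 y2 (d * m) =
          ∑ m ∈ ((Icc 1 (4 * P)).filter (fun m => P < d * m ∧ d * m ≤ 4 * P)).filter
            (fun m => y1 < d * m ∧ d * m ≤ y2 ∧ d * m ≡ a [MOD M]), w m * χ ((d * m : ℕ)) := by
        rw [sum_filter (fun m => y1 < d * m ∧ d * m ≤ y2 ∧ d * m ≡ a [MOD M])]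
        refine sum_congr rfl fun m _ => ?_
        unfold FF
        split_ifs
        · rfl
        · rw [mul_zero]
      rw [h1]
      refine sum_congr ?_ ?_
      · ext m
        simp only [mem_filter, mem_Icc, mem_Ioc]
        have e1 : y1 / d < m ↔ y1 < m * d := Nat.div_lt_iff_lt_mul (by omega)
        have e2 : m ≤ y2 / d ↔ m * d ≤ y2 := Nat.le_div_iff_mul_le (by omega)
        rw [e1, e2, ← hcl m, mul_comm m d]
        constructor
        · rintro ⟨-, h2, h3, h4⟩
          exact ⟨⟨h2, h3⟩, h4⟩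
        · rintro ⟨⟨h2, h3⟩, h4⟩
          have hm0 : 1 ≤ m := by
            rcases Nat.eq_zero_or_pos m with rfl | h
            · simp at h2
            · exact h
          have hm1 : m ≤ d * m := Nat.le_mul_of_pos_left m (by omega)
          exact ⟨⟨⟨hm0, by omega⟩, by omega, by omega⟩, h2, h3, h4⟩
      · intro m _
        push_cast
        rw [map_mul]
        ring
    have hχd : ‖χ (d : ZMod f)‖ ≤ 1 := DirichletCharacter.norm_le_one χ _
    constructor
    · have h1 := key (fun _ => 1)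
      simp only [one_mul] at h1
      rw [h1, norm_mul]
      calc _ ≤ 1 * (f : ℝ) := mul_le_mul hχd (chi_prog hf hM hc hχ c _ _) (norm_nonneg _)
            zero_le_one
        _ = f := one_mul _
    · have h1 := key (fun m => ((Real.log m : ℝ) : ℂ))
      rw [h1, norm_mul]
      have h2 := chi_prog_log hf hM hc hχ c (y1 / d) (y2 / d)
      have h3 : Real.log ((y2 / d : ℕ) : ℝ) ≤ Real.log (4 * (P : ℝ)) := by
        have h4 := log_mono (show y2 / d ≤ 4 * P from (Nat.div_le_self _ _).trans hy2)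
        push_cast at h4 ⊢
        exact h4
      calc _ ≤ 1 * (2 * (f : ℝ) * Real.log ((y2 / d : ℕ) : ℝ)) :=
            mul_le_mul hχd h2 (norm_nonneg _) zero_le_one
        _ = 2 * (f : ℝ) * Real.log ((y2 / d : ℕ) : ℝ) := one_mul _
        _ ≤ 2 * f * Real.log (4 * P) := mul_le_mul_of_nonneg_left h3 (by positivity)
  · -- no terms
    have hz : ∀ m : ℕ, FF χ M a y1 y2 (d * m) = 0 := by
      intro m
      unfold FF
      rw [if_neg]
      rintro ⟨-, -, h⟩
      have h1 : (d * m).Coprime M := by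
        have := h.gcd_eq
        show Nat.gcd (d * m) M = 1
        rw [this]
        exact ha
      exact hdM (Nat.Coprime.coprime_mul_right h1)
    constructor
    · simp only [hz, sum_const_zero, norm_zero]
      positivity
    · simp only [hz, mul_zero, sum_const_zero, norm_zero]
      positivity

end Pool.Agent.ATL
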